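import Pool.Agent.Helper29_TMP.Elim

/-!
# ELIM: the statement is true
-/

open scoped BigOperators Pointwise

namespace Pool.Agent.TMP.H29

open Pool.Agent.DEN Pool.Agent.TMP

theorem elim : ElimStatement := by
  classical
  intro r C hC
  have hfin := WA_finite hC
  have hF : Fintype (WA hC) := Fintype.ofFinite _
  choose e he1 he2 using fun g : WA hC => WA_dom hC g.2
  -- the vectors
  set m : WA hC → Fin r → (Fin r → ℤ) := fun g i => al i - e g (al i) with hm
  set W := Fintype.card (WA hC) with hW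
  set B : ℤ := ∑ u : WA hC, ∑ g : WA hC, ∑ i : Fin r, ∑ j : Fin r, |e u (m g i) j| with hB
  have hB0 : 0 ≤ B := Finset.sum_nonneg fun u _ => Finset.sum_nonneg fun g _ =>
    Finset.sum_nonneg fun i _ => Finset.sum_nonneg fun j _ => abs_nonneg _
  have hBle : ∀ u g i j, |e u (m g i) j| ≤ B := by
    intro u g i j
    have h1 : |e u (m g i) j| ≤ ∑ j : Fin r, |e u (m g i) j| :=
      Finset.single_le_sum (f := fun j => |e u (m g i) j|) (fun _ _ => abs_nonneg _)
        (Finset.mem_univ j)
    have h2 : ∑ j : Fin r, |e u (m g i) j| ≤ ∑ i : Fin r, ∑ j : Fin r, |e u (m g i) j| :=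
      Finset.single_le_sum (f := fun i => ∑ j : Fin r, |e u (m g i) j|)
        (fun _ _ => Finset.sum_nonneg fun _ _ => abs_nonneg _) (Finset.mem_univ i)
    have h3 : ∑ i : Fin r, ∑ j : Fin r, |e u (m g i) j| ≤
        ∑ g : WA hC, ∑ i : Fin r, ∑ j : Fin r, |e u (m g i) j| :=
      Finset.single_le_sum (f := fun g => ∑ i : Fin r, ∑ j : Fin r, |e u (m g i) j|)
        (fun _ _ => Finset.sum_nonneg fun _ _ => Finset.sum_nonneg fun _ _ => abs_nonneg _)
        (Finset.mem_univ g)
    have h4 : ∑ g : WA hC, ∑ i : Fin r, ∑ j : Fin r, |e u (m g i) j| ≤ B :=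
      Finset.single_le_sum (f := fun u => ∑ g : WA hC, ∑ i : Fin r, ∑ j : Fin r, |e u (m g i) j|)
        (fun _ _ => Finset.sum_nonneg fun _ _ => Finset.sum_nonneg fun _ _ =>
          Finset.sum_nonneg fun _ _ => abs_nonneg _) (Finset.mem_univ u)
    linarith
  refine ⟨W * r * W * 4 * 18 ^ W + W * B.toNat, fun n hn => ?_⟩
  -- the invariants
  have hcoef : ∀ (b : CQ r) (j : ℕ),
      (MulSemiringAction.charpoly (WA hC) b).coeff j ∈ invAlg C := by
    intro b j
    refine mem_of_WA hC fun g hg => ?_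
    exact MulSemiringAction.smul_coeff_charpoly b j (⟨g, hg⟩ : WA hC)
  set p0 : (WA hC × Fin r) × Fin W → invAlg C := fun x =>
    if m x.1.1 x.1.2 = 0 then 0 else
      ⟨(MulSemiringAction.charpoly (WA hC) (Gn (m x.1.1 x.1.2) n)).coeff x.2, hcoef _ _⟩ with hp0
  let E := Fintype.equivFin ((WA hC × Fin r) × Fin W)
  have hchar : ∀ g i, MulSemiringAction.charpoly (WA hC) (Gn (m g i) n) =
      ∏ u ∈ (Finset.univ : Finset (WA hC)), (Polynomial.X -
        Polynomial.C (Gn (e u (m g i)) n)) := by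
    intro g i
    rw [MulSemiringAction.charpoly_eq]
    refine Finset.prod_congr rfl fun u _ => ?_
    have h1 : u • Gn (m g i) n = Gn (e u (m g i)) n := by
      change u.1 (Gn (m g i) n) = _
      rw [he2 u, dom_Gn]
    rw [h1]
  have hdeg : ∀ g i, (MulSemiringAction.charpoly (WA hC) (Gn (m g i) n)).natDegree = W := by
    intro g i
    rw [hchar, Polynomial.natDegree_finsetProd_X_sub_C_eq_card, Finset.card_univ]
  have hδ : (0 : ℝ) ≤ 4 / n := by positivity
  have hne : ∀ u g i, m g i ≠ 0 → e u (m g i) ≠ 0 := by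
    intro u g i h h0
    exact h ((map_eq_zero_iff (e u) (e u).injective).mp h0)
  refine ⟨Fintype.card ((WA hC × Fin r) × Fin W), fun k => p0 (E.symm k), ?_, ?_, ?_⟩
  · intro k μ hk i
    set x := E.symm k with hx
    rw [hp0] at hk
    simp only at hk
    by_cases h0 : m x.1.1 x.1.2 = 0
    · rw [if_pos h0] at hk
      exact absurd rfl hk
    · rw [if_neg h0] at hk
      simp only at hk
      rw [hchar] at hk
      have h1 := coeff_supp (fun u : WA hC => Gn (e u (m x.1.1 x.1.2)) n) (n * B)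
        (by positivity) (fun u μ hμ i => (supp_Gn _ n μ hμ i).trans
          (mul_le_mul_of_nonneg_left (hBle _ _ _ _) (by positivity))) Finset.univ _ μ hk i
      refine h1.trans ?_
      rw [Finset.card_univ, ← hW]
      push_cast
      rw [Int.toNat_of_nonneg hB0]
      have h2 : (0 : ℤ) ≤ (W : ℤ) * r * W * 4 * 18 ^ W * n := by positivity
      linarith
  · have h1 : ∀ k : Fin (Fintype.card ((WA hC × Fin r) × Fin W)),
        ∑ μ ∈ (p0 (E.symm k)).1.coeff.support, ‖(p0 (E.symm k)).1.coeff μ‖ ^ 2 ≤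
          4 / n * 18 ^ W := by
      intro k
      set x := E.symm k with hx
      change N2 (p0 x).1 ≤ _
      rw [hp0]
      simp only
      by_cases h0 : m x.1.1 x.1.2 = 0
      · rw [if_pos h0]
        have h2 : N2 ((0 : invAlg C) : CQ r) = 0 := N2_zero
        rw [h2]
        positivity
      · rw [if_neg h0]
        simp only
        rw [hchar]
        have h3 := (coeff_bound (fun u : WA hC => Gn (e u (m x.1.1 x.1.2)) n) (4 / n) hδ
          (fun u => N1_Gn _ n hn) (fun u => N2_Gn _ n hn (smul_inj (hne _ _ _ h0)))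
          Finset.univ).2 x.2 (by rw [Finset.card_univ]; exact x.2.2)
        rw [Finset.card_univ] at h3
        exact h3
    refine (Finset.sum_le_sum fun k _ => h1 k).trans ?_
    rw [Finset.sum_const, Finset.card_univ, Fintype.card_fin, nsmul_eq_mul]
    have h4 : (Fintype.card ((WA hC × Fin r) × Fin W) : ℝ) = W * r * W := by
      rw [Fintype.card_prod, Fintype.card_prod, Fintype.card_fin, Fintype.card_fin]
      push_cast
      rfl
    rw [h4]
    push_cast
    rw [div_mul_eq_mul_div, mul_div_assoc', div_le_div_iff_of_pos_right (by positivity)]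
    have h5 : (0 : ℝ) ≤ (W : ℝ) * B.toNat := by positivity
    linarith
  · intro χ hχ
    obtain ⟨ψ, hψ⟩ := exists_ext hC χ
    have hst : ∀ a : invAlg C, ψ a.1 = stc ψ a.1 := by
      intro a
      rw [stc_apply, hψ a]
      have h1 := hχ a ⟨st a.1, st_mem hC a.2⟩ (fun μ => st_coeff a.1 μ)
      rw [hψ ⟨st a.1, st_mem hC a.2⟩, h1, Complex.conj_conj]
    obtain ⟨g, hg, hg2⟩ := conj_ext hC ψ (stc ψ) hst
    have hkey : ∀ μ, ψ (AddMonoidAlgebra.single (e ⟨g, hg⟩ μ) 1) *
        (starRingEnd ℂ) (ψ (AddMonoidAlgebra.single μ 1)) = 1 := by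
      intro μ
      have h1 := hg2 (AddMonoidAlgebra.single μ 1)
      have h2 : g (AddMonoidAlgebra.single μ 1) = AddMonoidAlgebra.single (e ⟨g, hg⟩ μ) 1 := by
        have h3 : (⟨g, hg⟩ : WA hC).1 = AddMonoidAlgebra.domCongr ℂ ℂ (e ⟨g, hg⟩) := he2 ⟨g, hg⟩
        exact (congrArg (fun f : CQ r ≃ₐ[ℂ] CQ r => f (AddMonoidAlgebra.single μ 1)) h3).trans
          (AddMonoidAlgebra.domCongr_single _ _ _)
      rw [h2, stc_single, one_mul] at h1
      rw [← h1, ← map_mul, ← map_mul, AddMonoidAlgebra.single_mul_single, neg_add_cancel, one_mul,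
        ← AddMonoidAlgebra.one_def, map_one, map_one]
    by_cases hall : ∀ i, m ⟨g, hg⟩ i = 0
    · left
      refine ⟨ψ, hψ, fun μ => ?_⟩
      have h1 : e ⟨g, hg⟩ = AddEquiv.refl _ := by
        apply eq_of_al
        intro i
        have h2 := hall i
        rw [hm] at h2
        simp only [sub_eq_zero] at h2
        exact h2.symm
      have h3 := hkey μ
      rw [h1, AddEquiv.refl_apply, Complex.mul_conj, Complex.normSq_eq_norm_sq] at h3
      have h4 : ‖ψ (AddMonoidAlgebra.single μ 1)‖ ^ 2 = 1 := by exact_mod_cast h3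
      have h5 := norm_nonneg (ψ (AddMonoidAlgebra.single μ 1))
      nlinarith
    · right
      push Not at hall
      obtain ⟨i, hi⟩ := hall
      set a := ψ (AddMonoidAlgebra.single (al i) 1) with ha
      have ha0 : a ≠ 0 := by
        intro h0
        have h1 := hkey (al i)
        rw [← ha, h0, map_zero, mul_zero] at h1
        exact zero_ne_one h1
      have h1 : ψ (AddMonoidAlgebra.single (m ⟨g, hg⟩ i) 1) = ((‖a‖ ^ 2 : ℝ) : ℂ) := by
        have h2 : ψ (AddMonoidAlgebra.single (m ⟨g, hg⟩ i) 1) *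
            ψ (AddMonoidAlgebra.single (e ⟨g, hg⟩ (al i)) 1) = a := by
          rw [← map_mul, AddMonoidAlgebra.single_mul_single, one_mul, ha]
          congr 2
          rw [hm]
          simp
        have h3 := hkey (al i)
        rw [← ha] at h3
        have h4 : ψ (AddMonoidAlgebra.single (m ⟨g, hg⟩ i) 1) = a * (starRingEnd ℂ) a := by
          calc ψ (AddMonoidAlgebra.single (m ⟨g, hg⟩ i) 1) =
              (ψ (AddMonoidAlgebra.single (m ⟨g, hg⟩ i) 1) *
                ψ (AddMonoidAlgebra.single (e ⟨g, hg⟩ (al i)) 1)) * (starRingEnd ℂ) a := by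
                rw [mul_assoc, h3, mul_one]
            _ = a * (starRingEnd ℂ) a := by rw [h2]
        rw [h4, Complex.mul_conj, Complex.normSq_eq_norm_sq]
      have h5 : 0 < ‖a‖ ^ 2 := by
        have := norm_pos_iff.mpr ha0
        positivity
      have h6 := psi_Gn ψ (m ⟨g, hg⟩ i) n hn (‖a‖ ^ 2) h5 h1
      obtain ⟨j, hj, hj2⟩ := root_bound (ψ : CQ r →+* ℂ)
        (MulSemiringAction.charpoly (WA hC) (Gn (m ⟨g, hg⟩ i) n))
        (MulSemiringAction.monic_charpoly (WA hC) _) (Gn (m ⟨g, hg⟩ i) n)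
        (MulSemiringAction.eval_charpoly (WA hC) _) h6
      rw [hdeg] at hj
      refine ⟨E ((⟨g, hg⟩, i), ⟨j, hj⟩), ?_⟩
      change 1 ≤ ‖χ (p0 (E.symm (E ((⟨g, hg⟩, i), ⟨j, hj⟩))))‖
      rw [E.symm_apply_apply, hp0]
      simp only
      rw [if_neg hi, ← hψ]
      exact hj2

end Pool.Agent.TMP.H29
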