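import Mathlib

/-!
# Mean values over finite orbits
-/

open scoped BigOperators

namespace Pool.Agent.TMP.H29

section
variable {G X : Type} [Group G] [MulAction G X]

/-- The mean value of `h` over the orbit of `z` under `H`. -/
noncomputable def Av (H : Subgroup G) (h : X → ℂ) (z : X) : ℂ :=
  (∑ᶠ y ∈ MulAction.orbit H z, h y) / Nat.card (MulAction.orbit H z)

theorem mem_orb {H : Subgroup G} {y z : X} : y ∈ MulAction.orbit H z ↔ ∃ g ∈ H, g • z = y := by
  constructor
  · rintro ⟨g, hg⟩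
    exact ⟨g.1, g.2, hg⟩
  · rintro ⟨g, hg, hy⟩
    exact ⟨⟨g, hg⟩, hy⟩

theorem orb_eq {H : Subgroup G} {y z : X} (h : y ∈ MulAction.orbit H z) :
    MulAction.orbit H y = MulAction.orbit H z :=
  MulAction.orbit_eq_iff.mpr h

theorem Av_congr_orb (H : Subgroup G) (h : X → ℂ) {y z : X} (hy : y ∈ MulAction.orbit H z) :
    Av H h y = Av H h z := by
  unfold Av
  rw [orb_eq hy]

theorem Av_smul (H : Subgroup G) (h : X → ℂ) {g : G} (hg : g ∈ H) (z : X) :
    Av H h (g • z) = Av H h z :=
  Av_congr_orb H h (mem_orb.mpr ⟨g, hg, rfl⟩)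

/-- The mean value of a function which is constant on the orbit. -/
theorem Av_const (H : Subgroup G) (h : X → ℂ) (z : X) (hfin : (MulAction.orbit H z).Finite)
    (c : ℂ) (hc : ∀ y ∈ MulAction.orbit H z, h y = c) : Av H h z = c := by
  unfold Av
  rw [finsum_mem_congr rfl hc, finsum_mem_eq_finite_toFinset_sum _ hfin, Finset.sum_const,
    ← Set.ncard_eq_toFinset_card _ hfin, nsmul_eq_mul]
  have h1 : Nat.card (MulAction.orbit H z) = (MulAction.orbit H z).ncard := rfl
  have h2 : (MulAction.orbit H z).ncard ≠ 0 := by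
    rw [Ne, Set.ncard_eq_zero hfin]
    exact (MulAction.nonempty_orbit z).ne_empty
  rw [h1, mul_comm, mul_div_assoc, div_self (by exact_mod_cast h2), mul_one]

/-- Taking the mean values does not change the sum over a stable finite set. -/
theorem sum_Av (H : Subgroup G) (h : X → ℂ) (O : Finset X)
    (hO : ∀ y ∈ O, ∀ g ∈ H, g • y ∈ O) : ∑ z ∈ O, Av H h z = ∑ z ∈ O, h z := by
  classical
  have hsub : ∀ z ∈ O, MulAction.orbit H z ⊆ (O : Set X) := by
    intro z hz y hy
    obtain ⟨g, hg, rfl⟩ := mem_orb.mp hy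
    exact hO z hz g hg
  have hfin : ∀ z ∈ O, (MulAction.orbit H z).Finite := fun z hz =>
    O.finite_toSet.subset (hsub z hz)
  have h1 : ∀ z ∈ O, Av H h z = ∑ y ∈ O, if y ∈ MulAction.orbit H z then
      h y / ((MulAction.orbit H y).ncard : ℂ) else 0 := by
    intro z hz
    unfold Av
    have h2 : ∑ᶠ y ∈ MulAction.orbit H z, h y =
        ∑ y ∈ O, if y ∈ MulAction.orbit H z then h y else 0 := by
      rw [finsum_mem_eq_finite_toFinset_sum _ (hfin z hz), ← Finset.sum_filter]
      refine Finset.sum_congr ?_ fun _ _ => rfl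
      ext y
      rw [Set.Finite.mem_toFinset, Finset.mem_filter]
      exact ⟨fun hy => ⟨hsub z hz hy, hy⟩, fun hy => hy.2⟩
    rw [h2, Finset.sum_div]
    refine Finset.sum_congr rfl fun y _ => ?_
    by_cases hy : y ∈ MulAction.orbit H z
    · rw [if_pos hy, if_pos hy, orb_eq hy]
      rfl
    · rw [if_neg hy, if_neg hy, zero_div]
  rw [Finset.sum_congr rfl h1, Finset.sum_comm]
  refine Finset.sum_congr rfl fun y hy => ?_
  have h3 : ∀ z ∈ O, (if y ∈ MulAction.orbit H z then
      h y / ((MulAction.orbit H y).ncard : ℂ) else 0) =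
      if z ∈ MulAction.orbit H y then h y / ((MulAction.orbit H y).ncard : ℂ) else 0 := by
    intro z _
    have : y ∈ MulAction.orbit H z ↔ z ∈ MulAction.orbit H y := MulAction.mem_orbit_symm
    simp only [this]
  rw [Finset.sum_congr rfl h3, ← Finset.sum_filter, Finset.sum_const, nsmul_eq_mul]
  have h4 : (O.filter fun z => z ∈ MulAction.orbit H y).card = (MulAction.orbit H y).ncard := by
    rw [Set.ncard_eq_toFinset_card _ (hfin y hy)]
    congr 1
    ext z
    rw [Set.Finite.mem_toFinset, Finset.mem_filter]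
    exact ⟨fun hz => hz.2, fun hz => ⟨hsub y hy hz, hz⟩⟩
  rw [h4]
  have h5 : (MulAction.orbit H y).ncard ≠ 0 := by
    rw [Ne, Set.ncard_eq_zero (hfin y hy)]
    exact (MulAction.nonempty_orbit y).ne_empty
  have h6 : ((MulAction.orbit H y).ncard : ℂ) ≠ 0 := by exact_mod_cast h5
  field_simp

/-- An element normalizing `V` maps orbits of `V` to orbits of `V`. -/
theorem Av_nrm (V : Subgroup G) (w : G) (hw : ∀ v ∈ V, w * v * w⁻¹ ∈ V)
    (hw' : ∀ v ∈ V, w⁻¹ * v * w ∈ V) (h : X → ℂ) (z : X) :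
    Av V h (w • z) = Av V (fun y => h (w • y)) z := by
  have h1 : MulAction.orbit V (w • z) = (fun y => w • y) '' MulAction.orbit V z := by
    ext y
    rw [mem_orb]
    constructor
    · rintro ⟨g, hg, rfl⟩
      refine ⟨(w⁻¹ * g * w) • z, mem_orb.mpr ⟨_, hw' g hg, rfl⟩, ?_⟩
      simp only [smul_smul]
      congr 1
      group
    · rintro ⟨x, hx, rfl⟩
      obtain ⟨g, hg, rfl⟩ := mem_orb.mp hx
      refine ⟨w * g * w⁻¹, hw g hg, ?_⟩
      simp only [smul_smul]
      congr 1
      group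
  have hinj : Function.Injective fun y : X => w • y := MulAction.injective w
  unfold Av
  rw [h1, finsum_mem_image hinj.injOn, Nat.card_image_of_injective hinj]

/-- The main lemma: the mean value over the orbits of `V J` is invariant under `w`. -/
theorem Av_main (V J : Subgroup G) (hfin : ∀ z : X, (MulAction.orbit (V ⊔ J : Subgroup G) z).Finite)
    (hJ : ∀ j ∈ J, ∀ v ∈ V, j * v * j⁻¹ ∈ V) (w : G) (hw : ∀ v ∈ V, w * v * w⁻¹ ∈ V)
    (hw' : ∀ v ∈ V, w⁻¹ * v * w ∈ V) (h : X → ℂ) (hA : ∀ y, Av J h (w • y) = Av J h y) (z : X) :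
    Av (V ⊔ J) h (w • z) = Av (V ⊔ J) h z := by
  classical
  have key : ∀ z : X, Av (V ⊔ J) h z = Av V (Av J h) z := by
    intro z
    set B := Av V (Av J h) with hB
    have hBV : ∀ v ∈ V, ∀ y, B (v • y) = B y := fun v hv y => Av_smul V _ hv y
    have hBJ : ∀ j ∈ J, ∀ y, B (j • y) = B y := by
      intro j hj y
      rw [hB, Av_nrm V j (hJ j hj) (fun v hv => by
        have := hJ j⁻¹ (inv_mem hj) v hv
        rwa [inv_inv] at this)]
      congr 1
      funext x
      exact Av_smul J h hj x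
    let S : Subgroup G :=
      { carrier := {g | ∀ y, B (g • y) = B y}
        mul_mem' := by
          intro g g' hg hg' y
          rw [mul_smul, hg, hg']
        one_mem' := by
          intro y
          rw [one_smul]
        inv_mem' := by
          intro g hg y
          rw [← hg (g⁻¹ • y), smul_inv_smul] }
    have hBI : ∀ g ∈ V ⊔ J, ∀ y, B (g • y) = B y := by
      have hle : V ⊔ J ≤ S := sup_le (fun g hg => hBV g hg) (fun g hg => hBJ g hg)
      exact fun g hg => hle hg
    set O := (hfin z).toFinset with hO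
    have hmem : ∀ y, y ∈ O ↔ y ∈ MulAction.orbit (V ⊔ J : Subgroup G) z := fun y =>
      (hfin z).mem_toFinset
    have hst : ∀ y ∈ O, ∀ g ∈ V ⊔ J, g • y ∈ O := by
      intro y hy g hg
      rw [hmem] at hy ⊢
      obtain ⟨g', hg', rfl⟩ := mem_orb.mp hy
      exact mem_orb.mpr ⟨g * g', mul_mem hg hg', mul_smul _ _ _⟩
    have h1 : ∑ y ∈ O, B y = ∑ y ∈ O, h y := by
      rw [hB, sum_Av V _ O fun y hy g hg => hst y hy g (Subgroup.mem_sup_left hg),
        sum_Av J _ O fun y hy g hg => hst y hy g (Subgroup.mem_sup_right hg)]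
    have h2 : ∑ y ∈ O, Av (V ⊔ J) h y = ∑ y ∈ O, h y := sum_Av (V ⊔ J) h O hst
    have h3 : ∀ y ∈ O, B y = B z := by
      intro y hy
      rw [hmem] at hy
      obtain ⟨g, hg, rfl⟩ := mem_orb.mp hy
      exact hBI g hg z
    have h4 : ∀ y ∈ O, Av (V ⊔ J) h y = Av (V ⊔ J) h z := fun y hy =>
      Av_congr_orb _ h ((hmem y).mp hy)
    rw [Finset.sum_congr rfl h3, ← h2, Finset.sum_congr rfl h4, Finset.sum_const,
      Finset.sum_const] at h1
    have h5 : O.card ≠ 0 := by
      rw [Finset.card_ne_zero]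
      exact ⟨z, (hmem z).mpr (MulAction.mem_orbit_self z)⟩
    exact (smul_right_injective ℂ h5 h1).symm
  rw [key, key, Av_nrm V w hw hw']
  congr 1
  funext y
  exact hA y

end

end Pool.Agent.TMP.H29
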