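import Pool.Agent.Helper22_DEN.Asm

/-!
# Counting points parametrized by `Bd (n + k) / Bd n`
-/

open scoped BigOperators

namespace Pool.Agent.TMP.H29

open Pool.Agent.DEN

section
variable {K : Type} [Field K]

/-- `b` has degree exactly `m`. -/
def Dg (m : ℤ) (b : FF K) : Prop := b ∈ Bd K m ∧ b ∉ Bd K (m - 1)

theorem Bd_mono {m n : ℤ} (h : m ≤ n) {a : FF K} (ha : a ∈ Bd K m) : a ∈ Bd K n :=
  (H22.hF1 K).2.2.2.2.1 m n a h ha

theorem Bd_zero (m : ℤ) : (0 : FF K) ∈ Bd K m := (H22.hF1 K).1 m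

theorem Bd_add {m : ℤ} {a b : FF K} (ha : a ∈ Bd K m) (hb : b ∈ Bd K m) : a + b ∈ Bd K m :=
  (H22.hF1 K).2.1 m a b ha hb

theorem Bd_neg {m : ℤ} {a : FF K} (ha : a ∈ Bd K m) : -a ∈ Bd K m := (H22.hF1 K).2.2.1 m a ha

theorem Bd_sub {m : ℤ} {a b : FF K} (ha : a ∈ Bd K m) (hb : b ∈ Bd K m) : a - b ∈ Bd K m := by
  rw [sub_eq_add_neg]
  exact Bd_add ha (Bd_neg hb)

theorem Bd_mul {m n : ℤ} {a b : FF K} (ha : a ∈ Bd K m) (hb : b ∈ Bd K n) : a * b ∈ Bd K (m + n) :=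
  (H22.hF1 K).2.2.2.1 m n a b ha hb

theorem Dg.ne {m : ℤ} {b : FF K} (h : Dg m b) : b ≠ 0 := by
  rintro rfl
  exact h.2 (Bd_zero _)

theorem exists_Dg {b : FF K} (hb : b ≠ 0) : ∃ m, Dg m b ∧ b⁻¹ ∈ Bd K (-m) := by
  obtain ⟨F1, F2, F3, F4, F5, F6, F7, F8, F9⟩ := H22.hF1 K
  obtain ⟨m, u, hbu, hu0, hu1, hune, hbm⟩ := F9 b hb
  refine ⟨m, ⟨?_, hbm⟩, ?_⟩
  · rw [hbu, F8]
    exact hu0
  · rw [hbu, mul_inv, ← zpow_neg, F8]
    exact hu1

theorem Dg.unique {m n : ℤ} {b : FF K} (h : Dg m b) (h' : Dg n b) : m = n := by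
  rcases lt_trichotomy m n with h1 | h1 | h1
  · exact absurd (Bd_mono (by omega) h.1) h'.2
  · exact h1
  · exact absurd (Bd_mono (by omega) h'.1) h.2

theorem Dg.inv {m : ℤ} {b : FF K} (h : Dg m b) : Dg (-m) b⁻¹ := by
  obtain ⟨m', hm', hi⟩ := exists_Dg h.ne
  have : m' = m := hm'.unique h
  subst this
  refine ⟨hi, fun h1 => ?_⟩
  have h3 : (1 : FF K) ∈ Bd K (m' + (-m' - 1)) := by
    rw [← mul_inv_cancel₀ h.ne]
    exact Bd_mul h.1 h1
  have h4 := h3 0 (by omega)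
  rw [HahnSeries.coeff_one, if_pos rfl] at h4
  exact one_ne_zero h4

theorem Dg.add {m : ℤ} {b c : FF K} (h : Dg m b) (hc : c ∈ Bd K (m - 1)) : Dg m (b + c) := by
  refine ⟨Bd_add h.1 (Bd_mono (by omega) hc), fun h1 => h.2 ?_⟩
  have h2 := Bd_sub h1 hc
  rwa [add_sub_cancel_right] at h2

theorem Dg.neg {m : ℤ} {b : FF K} (h : Dg m b) : Dg m (-b) := by
  refine ⟨Bd_neg h.1, fun h1 => h.2 ?_⟩
  have h2 := Bd_neg h1
  rwa [neg_neg] at h2

theorem exists_Dg_of_not {n : ℤ} {b : FF K} (h : b ∉ Bd K n) : ∃ m, n < m ∧ Dg m b := by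
  have hb : b ≠ 0 := by
    rintro rfl
    exact h (Bd_zero _)
  obtain ⟨m, hm, _⟩ := exists_Dg hb
  refine ⟨m, ?_, hm⟩
  by_contra hcon
  push Not at hcon
  exact h (Bd_mono hcon hm.1)

theorem Dg.le {m n : ℤ} {b : FF K} (h : Dg m b) (hb : b ∈ Bd K n) : m ≤ n := by
  by_contra hcon
  push Not at hcon
  exact h.2 (Bd_mono (by omega) hb)

theorem Dg.sq {m n : ℤ} {b : FF K} (h : Dg m b) (hb : b ^ 2 ∈ Bd K n) : 2 * m ≤ n := by
  have h1 := h.inv.1
  have h2 : b ^ 2 * (b⁻¹ * b⁻¹) = 1 := by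
    field_simp [h.ne]
  have h3 : (1 : FF K) ∈ Bd K (n + (-m + -m)) := by
    rw [← h2]
    exact Bd_mul hb (Bd_mul h1 h1)
  by_contra hcon
  push Not at hcon
  have h4 := h3 0 (by omega)
  rw [HahnSeries.coeff_one, if_pos rfl] at h4
  exact one_ne_zero h4

/-- The Laurent polynomials used as representatives. -/
noncomputable def ser (n : ℤ) (k : ℕ) (c : Fin k → K) : FF K :=
  ∑ i : Fin k, HahnSeries.single (-(n + k) + (i : ℕ) : ℤ) (c i)

theorem ser_coeff (n : ℤ) (k : ℕ) (c : Fin k → K) (i : Fin k) :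
    (ser n k c).coeff (-(n + k) + (i : ℕ)) = c i := by
  unfold ser
  rw [HahnSeries.coeff_sum, Finset.sum_eq_single i]
  · rw [HahnSeries.coeff_single_same]
  · intro j _ hj
    rw [HahnSeries.coeff_single_of_ne]
    intro h
    apply hj
    apply Fin.ext
    have : ((i : ℕ) : ℤ) = ((j : ℕ) : ℤ) := by linarith
    exact_mod_cast this.symm
  · intro h
    exact absurd (Finset.mem_univ i) h

theorem ser_mem (n : ℤ) (k : ℕ) (c : Fin k → K) : ser n k c ∈ Bd K (n + k) := by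
  intro j hj
  unfold ser
  rw [HahnSeries.coeff_sum]
  refine Finset.sum_eq_zero fun i _ => ?_
  rw [HahnSeries.coeff_single_of_ne]
  omega

variable {X : Type}

theorem ncard_phi [Finite K] (φ : FF K → X) (n : ℤ) (hφ : ∀ b b', φ b = φ b' ↔ b - b' ∈ Bd K n)
    (k : ℕ) : (φ '' Bd K (n + k)).Finite ∧ (φ '' Bd K (n + k)).ncard = Nat.card K ^ k := by
  have h1 : φ '' Bd K (n + k) = Set.range fun c : Fin k → K => φ (ser n k c) := by
    ext x
    constructor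
    · rintro ⟨b, hb, rfl⟩
      refine ⟨fun i => b.coeff (-(n + k) + (i : ℕ)), ?_⟩
      rw [hφ]
      intro j hj
      rw [HahnSeries.coeff_sub]
      rcases lt_or_ge j (-(n + k)) with h | h
      · rw [ser_mem n k _ j h, hb j h, sub_zero]
      · have h2 : (j + (n + k)).toNat < k := by omega
        have h3 := ser_coeff n k (fun i : Fin k => b.coeff (-(n + k) + (i : ℕ)))
          ⟨(j + (n + k)).toNat, h2⟩
        have h4 : -(n + k) + (((j + (n + k)).toNat : ℕ) : ℤ) = j := by omega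
        simp only [h4] at h3
        rw [h3, sub_self]
    · rintro ⟨c, rfl⟩
      exact ⟨_, ser_mem n k c, rfl⟩
  have hinj : Function.Injective fun c : Fin k → K => φ (ser n k c) := by
    intro c c' h
    have h2 := (hφ _ _).mp h
    funext i
    have h3 := h2 (-(n + k) + (i : ℕ)) (by
      have := i.2
      omega)
    rw [HahnSeries.coeff_sub, ser_coeff, ser_coeff] at h3
    exact sub_eq_zero.mp h3
  constructor
  · rw [h1]
    exact Set.finite_range _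
  · rw [h1, ← Nat.card_coe_set_eq, Nat.card_range_of_injective hinj, Nat.card_fun, Nat.card_fin]

/-- The sum of a function which depends on the degree only. -/
theorem sum_phi [Finite K] (φ : FF K → X) (n : ℤ) (hφ : ∀ b b', φ b = φ b' ↔ b - b' ∈ Bd K n)
    (f : X → ℂ) (v : ℕ → ℂ) (h0 : ∀ b ∈ Bd K n, f (φ b) = v 0) (k : ℕ)
    (hv : ∀ j : ℕ, 1 ≤ j → j ≤ k → ∀ b, Dg (n + j) b → f (φ b) = v j) :
    ∑ᶠ x ∈ φ '' Bd K (n + k), f x =
      v 0 + ∑ j ∈ Finset.Ico 1 (k + 1), ((Nat.card K : ℂ) ^ j - (Nat.card K : ℂ) ^ (j - 1)) * v j := by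
  classical
  induction k with
  | zero =>
    have h1 : φ '' Bd K (n + (0 : ℕ)) = {φ 0} := by
      ext x
      rw [Set.mem_singleton_iff]
      constructor
      · rintro ⟨b, hb, rfl⟩
        rw [hφ, sub_zero]
        simpa using hb
      · rintro rfl
        exact ⟨0, Bd_zero _, rfl⟩
    rw [h1, finsum_mem_singleton, h0 0 (Bd_zero _)]
    simp
  | succ k ih =>
    have ih' := ih fun j h1 h2 b hb => hv j h1 (by omega) b hb
    obtain ⟨hf1, hc1⟩ := ncard_phi φ n hφ k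
    obtain ⟨hf2, hc2⟩ := ncard_phi φ n hφ (k + 1)
    have hsub : φ '' Bd K (n + k) ⊆ φ '' Bd K (n + (k + 1 : ℕ)) := by
      apply Set.image_mono
      intro b hb
      exact Bd_mono (by push_cast; omega) hb
    have hdiff : ∀ x ∈ φ '' Bd K (n + (k + 1 : ℕ)) \ φ '' Bd K (n + k), f x = v (k + 1) := by
      rintro x ⟨⟨b, hb, rfl⟩, hx⟩
      refine hv (k + 1) (by omega) le_rfl b ⟨hb, fun h => hx ⟨b, ?_, rfl⟩⟩
      have : n + ((k + 1 : ℕ) : ℤ) - 1 = n + k := by push_cast; ring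
      rwa [this] at h
    have hfd := hf2.subset (Set.sdiff_subset (t := φ '' Bd K (n + k)))
    have h2 : φ '' Bd K (n + (k + 1 : ℕ)) =
        φ '' Bd K (n + k) ∪ (φ '' Bd K (n + (k + 1 : ℕ)) \ φ '' Bd K (n + k)) :=
      (Set.union_diff_cancel hsub).symm
    have h3 : ∑ᶠ x ∈ φ '' Bd K (n + (k + 1 : ℕ)), f x =
        ∑ᶠ x ∈ φ '' Bd K (n + k), f x +
          ∑ᶠ x ∈ φ '' Bd K (n + (k + 1 : ℕ)) \ φ '' Bd K (n + k), f x := by
      conv_lhs => rw [h2]
      exact finsum_mem_union Set.disjoint_sdiff_right hf1 hfd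
    have h4 : ∑ᶠ x ∈ φ '' Bd K (n + (k + 1 : ℕ)) \ φ '' Bd K (n + k), f x =
        ((Nat.card K : ℂ) ^ (k + 1) - (Nat.card K : ℂ) ^ k) * v (k + 1) := by
      rw [finsum_mem_congr rfl hdiff, finsum_mem_eq_finite_toFinset_sum _ hfd, Finset.sum_const,
        ← Set.ncard_eq_toFinset_card _ hfd, Set.ncard_sdiff hsub hf1, hc1, hc2, nsmul_eq_mul]
      have h5 : Nat.card K ^ k ≤ Nat.card K ^ (k + 1) := by
        refine Nat.pow_le_pow_right ?_ (by omega)
        exact Nat.card_pos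
      rw [Nat.cast_sub h5]
      push_cast
      rfl
    rw [h3, ih', h4, Finset.sum_Ico_succ_top (by omega : 1 ≤ k + 1)]
    simp only [Nat.add_sub_cancel]
    ring

end

end Pool.Agent.TMP.H29
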