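import Mathlib

/-!
# Norms on the group algebra (the elimination part of the temperedness theorem)
-/

open scoped BigOperators

set_option linter.unusedSectionVars false

namespace Pool.Agent.TMP.H29

section
variable {Q : Type} [AddCommGroup Q]

/-- The `ℓ¹` norm. -/
noncomputable def N1 (p : AddMonoidAlgebra ℂ Q) : ℝ := ∑ μ ∈ p.coeff.support, ‖p.coeff μ‖

/-- The square of the `ℓ²` norm. -/
noncomputable def N2 (p : AddMonoidAlgebra ℂ Q) : ℝ := ∑ μ ∈ p.coeff.support, ‖p.coeff μ‖ ^ 2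

theorem N1_eq {p : AddMonoidAlgebra ℂ Q} {S : Finset Q} (h : p.coeff.support ⊆ S) :
    N1 p = ∑ μ ∈ S, ‖p.coeff μ‖ := by
  unfold N1
  refine Finset.sum_subset h fun μ _ hμ => ?_
  rw [Finsupp.notMem_support_iff] at hμ
  rw [hμ, norm_zero]

theorem N2_eq {p : AddMonoidAlgebra ℂ Q} {S : Finset Q} (h : p.coeff.support ⊆ S) :
    N2 p = ∑ μ ∈ S, ‖p.coeff μ‖ ^ 2 := by
  unfold N2
  refine Finset.sum_subset h fun μ _ hμ => ?_
  rw [Finsupp.notMem_support_iff] at hμ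
  rw [hμ, norm_zero]
  norm_num

theorem N1_nonneg (p : AddMonoidAlgebra ℂ Q) : 0 ≤ N1 p :=
  Finset.sum_nonneg fun _ _ => norm_nonneg _

theorem N2_nonneg (p : AddMonoidAlgebra ℂ Q) : 0 ≤ N2 p :=
  Finset.sum_nonneg fun _ _ => sq_nonneg _

theorem N1_add (p q : AddMonoidAlgebra ℂ Q) : N1 (p + q) ≤ N1 p + N1 q := by
  classical
  have h1 : (p + q).coeff.support ⊆ p.coeff.support ∪ q.coeff.support :=
    Finsupp.support_add
  rw [N1_eq h1, N1_eq (p := p) Finset.subset_union_left,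
    N1_eq (p := q) Finset.subset_union_right, ← Finset.sum_add_distrib]
  exact Finset.sum_le_sum fun μ _ => norm_add_le _ _

theorem N1_neg (p : AddMonoidAlgebra ℂ Q) : N1 (-p) = N1 p := by
  have h1 : (-p).coeff.support ⊆ p.coeff.support := by
    intro μ hμ
    rw [Finsupp.mem_support_iff] at hμ ⊢
    intro h
    apply hμ
    rw [AddMonoidAlgebra.coeff_neg, Finsupp.neg_apply, h, neg_zero]
  rw [N1_eq h1, N1]
  refine Finset.sum_congr rfl fun μ _ => ?_
  rw [AddMonoidAlgebra.coeff_neg, Finsupp.neg_apply, norm_neg]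

theorem N1_sub (p q : AddMonoidAlgebra ℂ Q) : N1 (p - q) ≤ N1 p + N1 q := by
  have h := N1_add p (-q)
  rw [N1_neg] at h
  rwa [sub_eq_add_neg]

theorem N1_zero : N1 (0 : AddMonoidAlgebra ℂ Q) = 0 := by simp [N1]

theorem N2_zero : N2 (0 : AddMonoidAlgebra ℂ Q) = 0 := by simp [N2]

theorem N1_one : N1 (1 : AddMonoidAlgebra ℂ Q) = 1 := by
  classical
  have h : (1 : AddMonoidAlgebra ℂ Q).coeff.support ⊆ {0} := by
    rw [AddMonoidAlgebra.one_def, AddMonoidAlgebra.coeff_single]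
    exact Finsupp.support_single_subset
  rw [N1_eq h, Finset.sum_singleton, AddMonoidAlgebra.one_def, AddMonoidAlgebra.coeff_single,
    Finsupp.single_eq_same, norm_one]

theorem N2_sub (p q : AddMonoidAlgebra ℂ Q) : N2 (p - q) ≤ 2 * N2 p + 2 * N2 q := by
  classical
  have h1 : (p - q).coeff.support ⊆ p.coeff.support ∪ q.coeff.support :=
    Finsupp.support_sub
  rw [N2_eq h1, N2_eq (p := p) Finset.subset_union_left,
    N2_eq (p := q) Finset.subset_union_right, Finset.mul_sum, Finset.mul_sum,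
    ← Finset.sum_add_distrib]
  refine Finset.sum_le_sum fun μ _ => ?_
  have h2 : ‖(p - q).coeff μ‖ ≤ ‖p.coeff μ‖ + ‖q.coeff μ‖ := norm_sub_le _ _
  have h3 := norm_nonneg ((p - q).coeff μ)
  nlinarith [sq_nonneg (‖p.coeff μ‖ - ‖q.coeff μ‖)]

theorem coeff_mul_left (p q : AddMonoidAlgebra ℂ Q) (ν : Q) :
    (p * q).coeff ν = ∑ μ ∈ p.coeff.support, p.coeff μ * q.coeff (ν - μ) := by
  rw [AddMonoidAlgebra.coeff_mul_apply_left, Finsupp.sum]
  refine Finset.sum_congr rfl fun μ _ => ?_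
  rw [neg_add_eq_sub]

theorem sum_shift_le (f : Q → ℝ) (hf : ∀ x, 0 ≤ f x) (S T : Finset Q) (hS : ∀ x, x ∉ S → f x = 0)
    (μ : Q) : ∑ ν ∈ T, f (ν - μ) ≤ ∑ x ∈ S, f x := by
  classical
  have h1 : ∑ ν ∈ T, f (ν - μ) = ∑ x ∈ T.image (fun ν => ν - μ), f x := by
    rw [Finset.sum_image]
    intro a _ b _ h
    exact sub_left_injective h
  rw [h1, Finset.sum_subset (Finset.subset_union_left (s₁ := S) (s₂ := T.image (fun ν => ν - μ)))
    fun x _ hx => hS x hx]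
  exact Finset.sum_le_sum_of_subset_of_nonneg Finset.subset_union_right fun x _ _ => hf x

theorem N1_mul (p q : AddMonoidAlgebra ℂ Q) : N1 (p * q) ≤ N1 p * N1 q := by
  classical
  have h1 : N1 (p * q) ≤ ∑ ν ∈ (p * q).coeff.support, ∑ μ ∈ p.coeff.support,
      ‖p.coeff μ‖ * ‖q.coeff (ν - μ)‖ := by
    refine Finset.sum_le_sum fun ν _ => ?_
    rw [coeff_mul_left]
    refine (norm_sum_le _ _).trans (le_of_eq ?_)
    exact Finset.sum_congr rfl fun μ _ => norm_mul _ _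
  refine h1.trans ?_
  rw [Finset.sum_comm]
  unfold N1
  rw [Finset.sum_mul]
  refine Finset.sum_le_sum fun μ _ => ?_
  rw [← Finset.mul_sum]
  refine mul_le_mul_of_nonneg_left ?_ (norm_nonneg _)
  exact sum_shift_le (fun x => ‖q.coeff x‖) (fun x => norm_nonneg _) _ _ (fun x hx => by
    rw [Finsupp.notMem_support_iff] at hx
    rw [hx, norm_zero]) μ

theorem N2_mul (p q : AddMonoidAlgebra ℂ Q) : N2 (p * q) ≤ N1 p ^ 2 * N2 q := by
  classical
  have h1 : N2 (p * q) ≤ ∑ ν ∈ (p * q).coeff.support, N1 p * ∑ μ ∈ p.coeff.support,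
      ‖p.coeff μ‖ * ‖q.coeff (ν - μ)‖ ^ 2 := by
    refine Finset.sum_le_sum fun ν _ => ?_
    rw [coeff_mul_left]
    have h2 : ‖∑ μ ∈ p.coeff.support, p.coeff μ * q.coeff (ν - μ)‖ ≤
        ∑ μ ∈ p.coeff.support, √‖p.coeff μ‖ * (√‖p.coeff μ‖ * ‖q.coeff (ν - μ)‖) := by
      refine (norm_sum_le _ _).trans (le_of_eq ?_)
      refine Finset.sum_congr rfl fun μ _ => ?_
      rw [norm_mul, ← mul_assoc, Real.mul_self_sqrt (norm_nonneg _)]
    have h3 := Finset.sum_mul_sq_le_sq_mul_sq p.coeff.support (fun μ => √‖p.coeff μ‖)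
      (fun μ => √‖p.coeff μ‖ * ‖q.coeff (ν - μ)‖)
    have h4 : ∑ μ ∈ p.coeff.support, (√‖p.coeff μ‖) ^ 2 = N1 p := by
      refine Finset.sum_congr rfl fun μ _ => ?_
      exact Real.sq_sqrt (norm_nonneg _)
    have h5 : ∑ μ ∈ p.coeff.support, (√‖p.coeff μ‖ * ‖q.coeff (ν - μ)‖) ^ 2 =
        ∑ μ ∈ p.coeff.support, ‖p.coeff μ‖ * ‖q.coeff (ν - μ)‖ ^ 2 := by
      refine Finset.sum_congr rfl fun μ _ => ?_
      rw [mul_pow, Real.sq_sqrt (norm_nonneg _)]
    rw [h4, h5] at h3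
    refine le_trans ?_ h3
    exact pow_le_pow_left₀ (norm_nonneg _) h2 2
  refine h1.trans ?_
  rw [← Finset.mul_sum, Finset.sum_comm]
  have h6 : ∑ μ ∈ p.coeff.support, ∑ ν ∈ (p * q).coeff.support,
      ‖p.coeff μ‖ * ‖q.coeff (ν - μ)‖ ^ 2 ≤ N1 p * N2 q := by
    unfold N1
    rw [Finset.sum_mul]
    refine Finset.sum_le_sum fun μ _ => ?_
    rw [← Finset.mul_sum]
    refine mul_le_mul_of_nonneg_left ?_ (norm_nonneg _)
    exact sum_shift_le (fun x => ‖q.coeff x‖ ^ 2) (fun x => sq_nonneg _) _ _ (fun x hx => by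
      rw [Finsupp.notMem_support_iff] at hx
      rw [hx, norm_zero]; norm_num) μ
  calc N1 p * ∑ μ ∈ p.coeff.support, ∑ ν ∈ (p * q).coeff.support,
        ‖p.coeff μ‖ * ‖q.coeff (ν - μ)‖ ^ 2 ≤ N1 p * (N1 p * N2 q) :=
        mul_le_mul_of_nonneg_left h6 (N1_nonneg p)
    _ = N1 p ^ 2 * N2 q := by ring

theorem N1_dom (e : Q ≃+ Q) (p : AddMonoidAlgebra ℂ Q) :
    N1 (AddMonoidAlgebra.domCongr ℂ ℂ e p) = N1 p := by
  classical
  unfold N1
  rw [AddMonoidAlgebra.domCongr_support, Finset.sum_map]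
  refine Finset.sum_congr rfl fun μ _ => ?_
  rw [AddMonoidAlgebra.coeff_domCongr]
  simp

theorem N2_dom (e : Q ≃+ Q) (p : AddMonoidAlgebra ℂ Q) :
    N2 (AddMonoidAlgebra.domCongr ℂ ℂ e p) = N2 p := by
  classical
  unfold N2
  rw [AddMonoidAlgebra.domCongr_support, Finset.sum_map]
  refine Finset.sum_congr rfl fun μ _ => ?_
  rw [AddMonoidAlgebra.coeff_domCongr]
  simp

end

end Pool.Agent.TMP.H29
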