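import Pool.Agent.Helper29_TMP.StD
import Pool.Agent.Helper29_TMP.Nm
import Pool.Agent.Helper22_DEN.Asm

/-!
# DEL: the coefficients of `∏_{β > 0} (1 - e^β) / (1 - q⁻¹ e^β)`
-/

open scoped BigOperators

namespace Pool.Agent.TMP.H29

open Pool.Agent.DEN Pool.Agent.TMP

/-- The coefficients of `(1 - x) / (1 - q⁻¹ x)`. -/
noncomputable def gk (q : ℝ) (k : ℕ) : ℝ := if k = 0 then 1 else -((1 - q⁻¹) * q⁻¹ ^ (k - 1))

theorem gk_zero (q : ℝ) : gk q 0 = 1 := if_pos rfl

theorem gk_one (q : ℝ) : gk q 1 = -(1 - q⁻¹) := by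
  unfold gk
  rw [if_neg one_ne_zero]
  simp

theorem gk_succ (q : ℝ) (k : ℕ) : gk q (k + 2) = q⁻¹ * gk q (k + 1) := by
  unfold gk
  rw [if_neg (by omega), if_neg (by omega)]
  have h1 : k + 2 - 1 = (k + 1 - 1) + 1 := by omega
  rw [h1, pow_succ]
  ring

theorem sum_gk (q : ℝ) (hq : 1 < q) (M : ℕ) : ∑ k ∈ Finset.range M, |gk q k| ≤ 2 := by
  have h0 : 0 < q⁻¹ := by positivity
  have h1 : q⁻¹ < 1 := inv_lt_one_of_one_lt₀ hq
  have h2 : ∀ k, |gk q (k + 1)| = (1 - q⁻¹) * q⁻¹ ^ k := by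
    intro k
    unfold gk
    rw [if_neg (by omega), abs_neg, Nat.add_sub_cancel, abs_of_nonneg]
    have : 0 ≤ 1 - q⁻¹ := by linarith
    positivity
  have h3 : ∀ M, ∑ k ∈ Finset.range (M + 1), |gk q k| = 1 + (1 - q⁻¹ ^ M) := by
    intro M
    rw [Finset.sum_range_succ', gk_zero, abs_one, add_comm]
    congr 1
    rw [Finset.sum_congr rfl fun k _ => h2 k, ← Finset.mul_sum]
    have h4 := geom_sum_mul_neg q⁻¹ M
    linarith
  rcases M with _ | M
  · simp
  · rw [h3]
    have : 0 ≤ q⁻¹ ^ M := by positivity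
    linarith

section
variable {r : ℕ} {C : Matrix (Fin r) (Fin r) ℤ}

/-- The height. -/
def hgt (μ : Fin r → ℤ) : ℤ := ∑ i, μ i

theorem hgt_add (μ ν : Fin r → ℤ) : hgt (μ + ν) = hgt μ + hgt ν := by
  simp [hgt, Finset.sum_add_distrib]

theorem hgt_smul (k : ℕ) (μ : Fin r → ℤ) : hgt (k • μ) = k * hgt μ := by
  simp [hgt, Finset.mul_sum]

/-- The support is in the positive cone, at height at least `M`. -/
def Dp (M : ℤ) (p : CQ r) : Prop := ∀ μ, p.coeff μ ≠ 0 → (∀ i, 0 ≤ μ i) ∧ M ≤ hgt μ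

theorem Dp.mul {M N : ℤ} {p q : CQ r} (hp : Dp M p) (hq : Dp N q) : Dp (M + N) (p * q) := by
  intro μ h
  rw [coeff_mul_left] at h
  obtain ⟨ν, _, hν⟩ := Finset.exists_ne_zero_of_sum_ne_zero h
  have h1 := hp ν (left_ne_zero_of_mul hν)
  have h2 := hq (μ - ν) (right_ne_zero_of_mul hν)
  have h3 : μ = ν + (μ - ν) := by abel
  refine ⟨fun i => ?_, ?_⟩
  · have h4 := congrFun h3 i
    rw [Pi.add_apply] at h4
    have := h1.1 i
    have := h2.1 i
    omega
  · rw [h3, hgt_add]
    exact add_le_add h1.2 h2.2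

theorem Dp.add {M : ℤ} {p q : CQ r} (hp : Dp M p) (hq : Dp M q) : Dp M (p + q) := by
  intro μ h
  rw [AddMonoidAlgebra.coeff_add, Finsupp.add_apply] at h
  by_cases h0 : p.coeff μ = 0
  · rw [h0, zero_add] at h
    exact hq μ h
  · exact hp μ h0

theorem Dp.zero (M : ℤ) : Dp M (0 : CQ r) := by
  intro μ h
  exact absurd rfl h

theorem Dp.sum {ι : Type} {M : ℤ} (S : Finset ι) (p : ι → CQ r) (h : ∀ i ∈ S, Dp M (p i)) :
    Dp M (∑ i ∈ S, p i) := by
  classical
  induction S using Finset.induction_on with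
  | empty => exact Dp.zero M
  | insert a S ha ih =>
    rw [Finset.sum_insert ha]
    exact (h a (Finset.mem_insert_self a S)).add
      (ih fun i hi => h i (Finset.mem_insert_of_mem hi))

theorem Dp.single {μ : Fin r → ℤ} (h : ∀ i, 0 ≤ μ i) {M : ℤ} (hM : M ≤ hgt μ) (c : ℂ) :
    Dp M (AddMonoidAlgebra.single μ c : CQ r) := by
  classical
  intro ν hν
  rw [AddMonoidAlgebra.coeff_single, Finsupp.single_apply] at hν
  have h1 : μ = ν := by
    by_contra hne
    exact hν (if_neg hne)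
  rw [← h1]
  exact ⟨h, hM⟩

theorem Dp.one : Dp 0 (1 : CQ r) := by
  rw [AddMonoidAlgebra.one_def]
  exact Dp.single (fun i => le_refl _) (by simp [hgt]) 1

/-- The truncated series of the root `β`. -/
noncomputable def pb (q : ℝ) (M : ℕ) (β : Rt C) : CQ r :=
  ∑ k ∈ Finset.range M, AddMonoidAlgebra.single (k • β.1) ((gk q k : ℝ) : ℂ)

theorem N1_pb (q : ℝ) (hq : 1 < q) (M : ℕ) (β : Rt C) : N1 (pb q M β) ≤ 2 := by
  classical
  have h1 : ∀ T : Finset ℕ, N1 (∑ k ∈ T,
      (AddMonoidAlgebra.single (k • β.1) ((gk q k : ℝ) : ℂ) : CQ r)) ≤ ∑ k ∈ T, |gk q k| := by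
    intro T
    induction T using Finset.induction_on with
    | empty => simp [N1_zero]
    | insert a T ha ih =>
      rw [Finset.sum_insert ha, Finset.sum_insert ha]
      refine (N1_add _ _).trans (add_le_add ?_ ih)
      have h3 : (AddMonoidAlgebra.single (a • β.1) ((gk q a : ℝ) : ℂ)).coeff.support ⊆
          {a • β.1} := Finsupp.support_single_subset
      rw [N1_eq h3, Finset.sum_singleton, AddMonoidAlgebra.coeff_single,
        Finsupp.single_eq_same, Complex.norm_real, Real.norm_eq_abs]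
  exact (h1 _).trans (sum_gk q hq M)

theorem hgt_pos {β : Rt C} (hβ : β.Pos) : 1 ≤ hgt β.1 := by
  by_contra hcon
  have h1 : hgt β.1 ≤ 0 := by omega
  have h2 : ∀ i, β.1 i = 0 := by
    intro i
    have h3 : β.1 i ≤ hgt β.1 :=
      Finset.single_le_sum (f := fun i => β.1 i) (fun i _ => hβ i) (Finset.mem_univ i)
    have := hβ i
    omega
  have h4 := β.2
  rw [show β.1 = 0 from funext h2, ip_zero_left] at h4
  norm_num at h4

theorem Dp_pb (q : ℝ) (M : ℕ) {β : Rt C} (hβ : β.Pos) : Dp 0 (pb q M β) := by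
  refine Dp.sum _ _ fun k _ => Dp.single (fun i => ?_) ?_ _
  · rw [Pi.smul_apply, nsmul_eq_mul]
    exact mul_nonneg (by positivity) (hβ i)
  · rw [hgt_smul]
    have := hgt_pos hβ
    positivity

theorem Dp_pb_sub (q : ℝ) {M M' : ℕ} (h : M ≤ M') {β : Rt C} (hβ : β.Pos) :
    Dp M (pb q M' β - pb q M β) := by
  unfold pb
  rw [← Finset.sum_sdiff_eq_sub (Finset.range_mono h)]
  refine Dp.sum _ _ fun k hk => Dp.single (fun i => ?_) ?_ _
  · rw [Pi.smul_apply, nsmul_eq_mul]
    exact mul_nonneg (by positivity) (hβ i)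
  · rw [hgt_smul]
    rw [Finset.mem_sdiff, Finset.mem_range, Finset.mem_range, not_lt] at hk
    have h1 := hgt_pos hβ
    have h2 : (M : ℤ) ≤ k := by exact_mod_cast hk.2
    nlinarith

theorem Dp_prod (q : ℝ) (M : ℕ) (S : Finset (Rt C)) (hS : ∀ β ∈ S, β.Pos) :
    Dp 0 (∏ β ∈ S, pb q M β) := by
  classical
  induction S using Finset.induction_on with
  | empty => rw [Finset.prod_empty]; exact Dp.one
  | insert a S ha ih =>
    rw [Finset.prod_insert ha]
    have h := (Dp_pb q M (hS a (Finset.mem_insert_self a S))).mul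
      (ih fun β hβ => hS β (Finset.mem_insert_of_mem hβ))
    rwa [add_zero] at h

theorem Dp_prod_sub (q : ℝ) {M M' : ℕ} (h : M ≤ M') (S : Finset (Rt C)) (hS : ∀ β ∈ S, β.Pos) :
    Dp M (∏ β ∈ S, pb q M' β - ∏ β ∈ S, pb q M β) := by
  classical
  induction S using Finset.induction_on with
  | empty => rw [Finset.prod_empty, Finset.prod_empty, sub_self]; exact Dp.zero _
  | insert a S ha ih =>
    rw [Finset.prod_insert ha, Finset.prod_insert ha]
    have ih' := ih fun β hβ => hS β (Finset.mem_insert_of_mem hβ)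
    have h1 : pb q M' a * ∏ β ∈ S, pb q M' β - pb q M a * ∏ β ∈ S, pb q M β =
        (pb q M' a - pb q M a) * ∏ β ∈ S, pb q M' β +
          pb q M a * (∏ β ∈ S, pb q M' β - ∏ β ∈ S, pb q M β) := by ring
    rw [h1]
    have h2 := (Dp_pb_sub q h (hS a (Finset.mem_insert_self a S))).mul
      (Dp_prod q M' S fun β hβ => hS β (Finset.mem_insert_of_mem hβ))
    have h3 := (Dp_pb q M (hS a (Finset.mem_insert_self a S))).mul ih'
    rw [add_zero] at h2
    rw [zero_add] at h3
    exact h2.add h3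

theorem N1_prod (q : ℝ) (hq : 1 < q) (M : ℕ) (S : Finset (Rt C)) :
    N1 (∏ β ∈ S, pb q M β) ≤ 2 ^ S.card := by
  classical
  induction S using Finset.induction_on with
  | empty => rw [Finset.prod_empty, N1_one]; simp
  | insert a S ha ih =>
    rw [Finset.prod_insert ha, Finset.card_insert_of_notMem ha, pow_succ']
    exact (N1_mul _ _).trans (mul_le_mul (N1_pb q hq M a) ih (N1_nonneg _) (by norm_num))

theorem dom_pb (q : ℝ) (M : ℕ) (e : (Fin r → ℤ) ≃+ (Fin r → ℤ)) (β γ : Rt C) (h : γ.1 = e β.1) :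
    AddMonoidAlgebra.domCongr ℂ ℂ e (pb q M β) = pb q M γ := by
  unfold pb
  rw [map_sum]
  refine Finset.sum_congr rfl fun k _ => ?_
  rw [AddMonoidAlgebra.domCongr_single, map_nsmul, h]

end

/-- The simple reflection of a root. -/
def sR {r : ℕ} {C : Matrix (Fin r) (Fin r) ℤ} (hC : SimplyLaced C) (i : Fin r) (β : Rt C) : Rt C :=
  ⟨srefE hC i β.1, (ip_sref hC i β.1 β.1).trans β.2⟩

theorem tele (q : ℝ) (f : ℕ → ℂ) (m : ℕ) :
    ∑ k ∈ Finset.range (m + 1), ((gk q k : ℝ) : ℂ) * f k -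
      ((q⁻¹ : ℝ) : ℂ) * ∑ k ∈ Finset.range (m + 1), ((gk q k : ℝ) : ℂ) * f (k + 1) =
      f 0 - f 1 - ((gk q (m + 1) : ℝ) : ℂ) * f (m + 1) := by
  induction m with
  | zero =>
    rw [Finset.sum_range_one, Finset.sum_range_one, gk_zero, gk_one]
    push_cast
    ring
  | succ m ih =>
    rw [Finset.sum_range_succ, Finset.sum_range_succ _ (m + 1), mul_add]
    have h1 : ((gk q (m + 1 + 1) : ℝ) : ℂ) = ((q⁻¹ : ℝ) : ℂ) * ((gk q (m + 1) : ℝ) : ℂ) := by
      rw [gk_succ q m]
      push_cast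
      rfl
    rw [h1]
    linear_combination ih

theorem del : DelStatement := by
  classical
  intro r C hC q hq
  have hfin : Finite (Rt C) := Pool.Agent.DEN.H22.hRF r C hC
  have hFt : Fintype (Rt C) := Fintype.ofFinite _
  set S : Finset (Rt C) := Finset.univ.filter fun β => β.Pos with hS
  have hSpos : ∀ β ∈ S, β.Pos := fun β hβ => (Finset.mem_filter.mp hβ).2
  set P : ℕ → CQ r := fun M => ∏ β ∈ S, pb q M β with hP
  have hstab : ∀ (μ : Fin r → ℤ) (M M' : ℕ), M ≤ M' → hgt μ < M →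
      (P M').coeff μ = (P M).coeff μ := by
    intro μ M M' h h1
    by_contra hne
    have h2 := Dp_prod_sub q h S hSpos μ (by
      rw [AddMonoidAlgebra.coeff_sub, Finsupp.sub_apply]
      exact sub_ne_zero.mpr hne)
    omega
  set D : (Fin r → ℤ) → ℂ := fun μ => (P ((hgt μ).toNat + 1)).coeff μ with hD
  have hDM : ∀ (μ : Fin r → ℤ) (M : ℕ), hgt μ < M → D μ = (P M).coeff μ := by
    intro μ M h
    rcases le_total ((hgt μ).toNat + 1) M with h1 | h1
    · exact (hstab μ _ _ h1 (by omega)).symm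
    · exact hstab μ _ _ h1 h
  refine ⟨D, ?_, ?_, ?_, ?_⟩
  · rw [hDM 0 1 (by simp [hgt])]
    have h1 : ∀ β : Rt C, pb q 1 β = 1 := by
      intro β
      unfold pb
      rw [Finset.sum_range_one, zero_smul, gk_zero, Complex.ofReal_one]
      rfl
    have h2 : P 1 = 1 := by
      rw [hP]
      exact Finset.prod_eq_one fun β _ => h1 β
    rw [h2, AddMonoidAlgebra.one_def, AddMonoidAlgebra.coeff_single, Finsupp.single_eq_same]
  · intro μ h i
    exact (Dp_prod q _ S hSpos μ h).1 i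
  · intro T
    obtain ⟨M, hM⟩ : ∃ M : ℕ, ∀ μ ∈ T, hgt μ < M := by
      refine ⟨∑ μ ∈ T, ((hgt μ).toNat + 1), fun μ hμ => ?_⟩
      have h1 : (hgt μ).toNat + 1 ≤ ∑ μ ∈ T, ((hgt μ).toNat + 1) :=
        Finset.single_le_sum (f := fun μ => (hgt μ).toNat + 1) (fun _ _ => Nat.zero_le _) hμ
      omega
    have h1 : ∑ μ ∈ T, ‖D μ‖ = ∑ μ ∈ T, ‖(P M).coeff μ‖ :=
      Finset.sum_congr rfl fun μ hμ => by rw [hDM μ M (hM μ hμ)]
    have h2 : ∑ μ ∈ T, ‖(P M).coeff μ‖ ≤ N1 (P M) := by
      rw [N1_eq (p := P M) (Finset.subset_union_right (s₁ := T))]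
      exact Finset.sum_le_sum_of_subset_of_nonneg Finset.subset_union_left
        fun _ _ _ => norm_nonneg _
    have h3 : N1 (P M) ≤ 2 ^ S.card := N1_prod q hq M S
    have h4 : (2 : ℝ) ^ S.card ≤ 2 ^ Nat.card (Rt C) := by
      refine pow_le_pow_right₀ (by norm_num) ?_
      rw [Nat.card_eq_fintype_card]
      exact Finset.card_le_univ S
    linarith
  · intro i μ hN
    set N := (ip C μ (al i)).toNat with hNd
    have hNz : ip C μ (al i) = N := by omega
    set M : ℕ := (hgt μ).toNat + 1 with hM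
    set S' := S.erase (hC.sr i) with hS'
    set P' : CQ r := ∏ β ∈ S', pb q M β with hP'
    have hmem : hC.sr i ∈ S := by
      rw [hS, Finset.mem_filter]
      refine ⟨Finset.mem_univ _, fun j => ?_⟩
      simp only [SimplyLaced.sr_val, al, Pi.single_apply]
      split_ifs <;> norm_num
    have hPM : P M = pb q M (hC.sr i) * P' := (Finset.mul_prod_erase S (pb q M) hmem).symm
    -- invariance of P'
    have hinv : AddMonoidAlgebra.domCongr ℂ ℂ (srefE hC i) P' = P' := by
      rw [hP', map_prod]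
      have hperm : ∀ β ∈ S', sR hC i β ∈ S' := by
        intro β hβ
        rw [hS', Finset.mem_erase] at hβ
        have h2 := (H22.hRD r C hC).2.1 i β (sR hC i β) (hSpos β hβ.2) hβ.1 rfl
        rw [hS', Finset.mem_erase, hS, Finset.mem_filter]
        exact ⟨h2.2, Finset.mem_univ _, h2.1⟩
      refine Finset.prod_bij (fun β _ => sR hC i β) hperm ?_ ?_ ?_
      · intro β _ γ _ h
        have h1 := congrArg Subtype.val h
        exact Subtype.ext ((srefE hC i).injective h1)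
      · intro β hβ
        refine ⟨sR hC i β, hperm β hβ, ?_⟩
        apply Subtype.ext
        exact sref_sref hC i β.1
      · intro β _
        exact dom_pb q M _ _ _ rfl
    have hco : ∀ j : ℕ, j ≤ N → P'.coeff (μ - ((N - j : ℕ) : ℤ) • al i) =
        P'.coeff (μ - (j : ℤ) • al i) := by
      intro j hj
      have h1 := congrArg (fun p : CQ r => p.coeff (μ - ((N - j : ℕ) : ℤ) • al i)) hinv
      simp only [AddMonoidAlgebra.coeff_domCongr] at h1
      rw [← h1]
      congr 1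
      change sref C i (μ - ((N - j : ℕ) : ℤ) • al i) = μ - (j : ℤ) • al i
      rw [sref_apply, ip_sub_left, ip_smul_left, ip_al_al, hC.diag, hNz]
      have h2 : ((N - j : ℕ) : ℤ) = N - j := by omega
      rw [h2]
      module
    -- the telescoping identity
    have hgj : ∀ j : ℕ, hgt (μ - (j : ℤ) • al i) = hgt μ - j := by
      intro j
      have h1 : ∑ k : Fin r, (al i : Fin r → ℤ) k = 1 := by
        simp [al]
      simp only [hgt, Pi.sub_apply, Pi.smul_apply, smul_eq_mul, Finset.sum_sub_distrib,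
        ← Finset.mul_sum, h1, mul_one]
    have hstep : ∀ j : ℕ, D (μ - (j : ℤ) • al i) -
        ((q⁻¹ : ℝ) : ℂ) * D (μ - ((j + 1 : ℕ) : ℤ) • al i) =
        P'.coeff (μ - (j : ℤ) • al i) - P'.coeff (μ - ((j + 1 : ℕ) : ℤ) • al i) := by
      intro j
      have h1 : ∀ j : ℕ, D (μ - (j : ℤ) • al i) = ∑ k ∈ Finset.range M,
          ((gk q k : ℝ) : ℂ) * P'.coeff (μ - ((j + k : ℕ) : ℤ) • al i) := by
        intro j
        rw [hDM _ M (by rw [hgj]; omega), hPM]
        unfold pb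
        rw [Finset.sum_mul, AddMonoidAlgebra.coeff_sum, Finsupp.finsetSum_apply]
        refine Finset.sum_congr rfl fun k _ => ?_
        rw [AddMonoidAlgebra.coeff_single_mul_apply]
        congr 2
        change -(k • al i) + (μ - (j : ℤ) • al i) = _
        push_cast
        module
      rw [h1, h1]
      have h2 := tele q (fun k => P'.coeff (μ - ((j + k : ℕ) : ℤ) • al i)) (hgt μ).toNat
      have h3 : P'.coeff (μ - ((j + ((hgt μ).toNat + 1) : ℕ) : ℤ) • al i) = 0 := by
        by_contra hne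
        have h4 := (Dp_prod q M S' (fun β hβ => hSpos β (Finset.mem_of_mem_erase hβ)) _ hne).2
        rw [hgj] at h4
        push_cast at h4
        omega
      rw [h3, mul_zero, sub_zero, add_zero] at h2
      rw [← h2]
      congr 1
      rw [Finset.mul_sum, Finset.mul_sum]
      refine Finset.sum_congr rfl fun k _ => ?_
      rw [show j + 1 + k = j + (k + 1) by ring]
    have hsum : ∑ j ∈ Finset.range N, (D (μ - (j : ℤ) • al i) -
        ((q⁻¹ : ℝ) : ℂ) * D (μ - ((j + 1 : ℕ) : ℤ) • al i)) = 0 := by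
      rw [Finset.sum_congr rfl fun j _ => hstep j,
        Finset.sum_range_sub' (fun j : ℕ => P'.coeff (μ - (j : ℤ) • al i)) N]
      have h1 := hco 0 (Nat.zero_le _)
      rw [Nat.sub_zero] at h1
      rw [h1, sub_self]
    rw [Finset.sum_sub_distrib, ← Finset.mul_sum] at hsum
    obtain ⟨n, hn⟩ : ∃ n, N = n + 1 := ⟨N - 1, by omega⟩
    have h1 : ∑ j ∈ Finset.range N, D (μ - (j : ℤ) • al i) =
        D μ + ∑ j ∈ Finset.Ico 1 N, D (μ - (j : ℤ) • al i) := by
      rw [Finset.range_eq_Ico, Finset.sum_eq_sum_Ico_succ_bot (by omega)]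
      simp
    have h2 : ∑ j ∈ Finset.range N, D (μ - ((j + 1 : ℕ) : ℤ) • al i) =
        ∑ j ∈ Finset.Ico 1 N, D (μ - (j : ℤ) • al i) + D (μ - (N : ℤ) • al i) := by
      rw [hn, Finset.sum_range_succ, Finset.sum_Ico_eq_sum_range]
      congr 1
      refine Finset.sum_congr (by simp) fun j _ => ?_
      rw [add_comm 1 j]
    rw [h1, h2] at hsum
    rw [hNz]
    have h3 : ((1 - q⁻¹ : ℝ) : ℂ) = 1 - ((q⁻¹ : ℝ) : ℂ) := by push_cast; rfl
    rw [h3]
    linear_combination -hsum

end Pool.Agent.TMP.H29
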