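import Pool.Agent.Helper29_TMP.Del
import Pool.Agent.Helper84_TMP.Stmt

/-!
# DEL in the form of the statements file
-/

open scoped BigOperators

namespace Pool.Agent.TMP.H29

open Pool.Agent.DEN Pool.Agent.TMP

theorem delS : DelStmt := by
  intro r C hC q hq
  obtain ⟨D, h0, h1, h2, h3⟩ := del r C hC q hq
  refine ⟨D, h0, h1, h2, fun i l hl => ?_⟩
  have h4 : ip C l (al i) = ip C (al i) l := hC.ip_comm _ _
  have h5 := h3 i l (by rw [h4]; exact hl)
  rw [h4] at h5
  push_cast at h5
  exact h5

end Pool.Agent.TMP.H29
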