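import Pool.Agent.Helper29_TMP.Ext
import Pool.Agent.Helper29_TMP.Nm

/-!
# ELIM: finitely many small invariants detect the non-tempered hermitian characters
-/

open scoped BigOperators Pointwise

namespace Pool.Agent.TMP.H29

open Pool.Agent.DEN Pool.Agent.TMP

/-! ## A monic polynomial with a root of absolute value at least `2` -/

theorem root_bound {R : Type} [CommRing R] (f : R →+* ℂ) (P : Polynomial R) (hP : P.Monic)
    (g : R) (hg : P.eval g = 0) (hg2 : 2 ≤ ‖f g‖) :
    ∃ j < P.natDegree, 1 ≤ ‖f (P.coeff j)‖ := by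
  by_contra hcon
  push Not at hcon
  set M := P.natDegree with hM
  set x := ‖f g‖ with hx
  have h1 : f g ^ M = -∑ j ∈ Finset.range M, f (P.coeff j) * f g ^ j := by
    have h2 : f (P.eval g) = 0 := by rw [hg, map_zero]
    rw [Polynomial.eval_eq_sum_range, Finset.sum_range_succ, hP.coeff_natDegree] at h2
    simp only [map_add, map_sum, map_mul, map_pow, map_one, one_mul] at h2
    rw [← hM] at h2
    linear_combination h2
  have h3 : x ^ M ≤ ∑ j ∈ Finset.range M, x ^ j := by
    rw [hx, ← norm_pow, h1, norm_neg]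
    refine (norm_sum_le _ _).trans (Finset.sum_le_sum fun j hj => ?_)
    rw [norm_mul, norm_pow]
    have h4 := (hcon j (Finset.mem_range.mp hj)).le
    calc ‖f (P.coeff j)‖ * ‖f g‖ ^ j ≤ 1 * ‖f g‖ ^ j :=
          mul_le_mul_of_nonneg_right h4 (by positivity)
      _ = ‖f g‖ ^ j := one_mul _
  have h5 : (∑ j ∈ Finset.range M, x ^ j) * (x - 1) = x ^ M - 1 := geom_sum_mul x M
  have h6 : 0 ≤ ∑ j ∈ Finset.range M, x ^ j := Finset.sum_nonneg fun j _ => by positivity
  nlinarith

/-! ## The norms of the coefficients of `∏ (X - G_u)` -/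

section
variable {Q : Type} [AddCommGroup Q]

open Polynomial in
theorem coeff_bound {ι : Type} (G : ι → AddMonoidAlgebra ℂ Q) (δ : ℝ) (hδ : 0 ≤ δ)
    (h1 : ∀ u, N1 (G u) ≤ 2) (h2 : ∀ u, N2 (G u) ≤ δ) (S : Finset ι) :
    (∀ j, N1 ((∏ u ∈ S, (X - C (G u))).coeff j) ≤ 3 ^ S.card) ∧
    (∀ j < S.card, N2 ((∏ u ∈ S, (X - C (G u))).coeff j) ≤ δ * 18 ^ S.card) := by
  classical
  induction S using Finset.induction_on with
  | empty =>
    refine ⟨fun j => ?_, fun j hj => ?_⟩
    · rw [Finset.prod_empty, Polynomial.coeff_one]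
      split_ifs
      · rw [N1_one]; simp
      · rw [N1_zero]; simp
    · simp at hj
  | insert u S hu ih =>
    obtain ⟨ih1, ih2⟩ := ih
    rw [Finset.prod_insert hu, Finset.card_insert_of_notMem hu]
    set P := ∏ u ∈ S, (X - C (G u)) with hP
    have hc0 : ((X - C (G u)) * P).coeff 0 = 0 - G u * P.coeff 0 := by
      rw [sub_mul, Polynomial.coeff_sub, Polynomial.coeff_X_mul_zero, Polynomial.coeff_C_mul]
    have hcs : ∀ j, ((X - C (G u)) * P).coeff (j + 1) = P.coeff j - G u * P.coeff (j + 1) := by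
      intro j
      rw [sub_mul, Polynomial.coeff_sub, Polynomial.coeff_X_mul, Polynomial.coeff_C_mul]
    have hb1 : ∀ j, N1 (G u * P.coeff j) ≤ 2 * 3 ^ S.card := fun j =>
      (N1_mul _ _).trans (mul_le_mul (h1 u) (ih1 j) (N1_nonneg _) (by norm_num))
    have hb2 : ∀ j, N2 (G u * P.coeff j) ≤ δ * 9 ^ S.card := by
      intro j
      rw [mul_comm]
      refine (N2_mul _ _).trans ?_
      calc N1 (P.coeff j) ^ 2 * N2 (G u) ≤ (3 ^ S.card) ^ 2 * δ :=
            mul_le_mul (pow_le_pow_left₀ (N1_nonneg _) (ih1 j) 2) (h2 u) (N2_nonneg _)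
              (by positivity)
        _ = δ * 9 ^ S.card := by
            rw [← pow_mul, mul_comm S.card 2, pow_mul]; norm_num; ring
    constructor
    · intro j
      have h3 : (3 : ℝ) ^ (S.card + 1) = 3 ^ S.card + 2 * 3 ^ S.card := by ring
      rw [h3]
      rcases j with _ | j
      · rw [hc0]
        refine (N1_sub _ _).trans ?_
        rw [N1_zero]
        have := hb1 0
        have h4 : (0 : ℝ) ≤ 3 ^ S.card := by positivity
        linarith
      · rw [hcs]
        refine (N1_sub _ _).trans ?_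
        have := hb1 (j + 1)
        have := ih1 j
        linarith
    · intro j hj
      have h3 : (0 : ℝ) ≤ δ * 9 ^ S.card := by positivity
      have h4 : (9 : ℝ) ^ S.card ≤ 18 ^ S.card := pow_le_pow_left₀ (by norm_num) (by norm_num) _
      have h5 : δ * 9 ^ S.card ≤ δ * 18 ^ S.card := mul_le_mul_of_nonneg_left h4 hδ
      have h6 : δ * 18 ^ (S.card + 1) = 18 * (δ * 18 ^ S.card) := by ring
      rw [h6]
      rcases j with _ | j
      · rw [hc0]
        refine (N2_sub _ _).trans ?_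
        rw [N2_zero]
        have := hb2 0
        linarith
      · rw [hcs]
        refine (N2_sub _ _).trans ?_
        have := hb2 (j + 1)
        have := ih2 j (by omega)
        linarith

/-- The support of the coefficients of `∏ (X - G_u)`. -/
theorem coeff_supp {r : ℕ} {ι : Type} (G : ι → AddMonoidAlgebra ℂ (Fin r → ℤ)) (R : ℤ) (hR : 0 ≤ R)
    (h1 : ∀ u μ, (G u).coeff μ ≠ 0 → ∀ i, |μ i| ≤ R) (S : Finset ι) :
    ∀ j μ, ((∏ u ∈ S, (Polynomial.X - Polynomial.C (G u))).coeff j).coeff μ ≠ 0 →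
      ∀ i, |μ i| ≤ S.card * R := by
  classical
  induction S using Finset.induction_on with
  | empty =>
    intro j μ h i
    rw [Finset.prod_empty, Polynomial.coeff_one] at h
    split_ifs at h
    · rw [AddMonoidAlgebra.one_def, AddMonoidAlgebra.coeff_single] at h
      have h0 : μ = 0 := by
        by_contra hne
        apply h
        exact Finsupp.single_eq_of_ne hne
      rw [h0]
      simp
    · exact absurd rfl h
  | insert u S hu ih =>
    rw [Finset.prod_insert hu, Finset.card_insert_of_notMem hu]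
    set P := ∏ u ∈ S, (Polynomial.X - Polynomial.C (G u)) with hP
    have hb : ∀ j μ, (G u * P.coeff j).coeff μ ≠ 0 → ∀ i, |μ i| ≤ (S.card + 1) * R := by
      intro j μ h i
      rw [coeff_mul_left] at h
      obtain ⟨ν, _, hν⟩ := Finset.exists_ne_zero_of_sum_ne_zero h
      have h2 := h1 u ν (left_ne_zero_of_mul hν) i
      have h3 := ih j (μ - ν) (right_ne_zero_of_mul hν) i
      have h4 : μ i = ν i + (μ - ν) i := by simp
      rw [h4]
      refine (abs_add_le _ _).trans ?_
      linarith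
    have hc : ∀ j μ, (P.coeff j).coeff μ ≠ 0 → ∀ i, |μ i| ≤ (S.card + 1) * R := by
      intro j μ h i
      have := ih j μ h i
      linarith
    intro j μ h i
    push_cast
    rcases j with _ | j
    · rw [sub_mul, Polynomial.coeff_sub, Polynomial.coeff_X_mul_zero, Polynomial.coeff_C_mul,
        AddMonoidAlgebra.coeff_sub, Finsupp.sub_apply, AddMonoidAlgebra.coeff_zero,
        Finsupp.zero_apply, zero_sub] at h
      exact hb 0 μ (fun h0 => h (by rw [h0, neg_zero])) i
    · rw [sub_mul, Polynomial.coeff_sub, Polynomial.coeff_X_mul, Polynomial.coeff_C_mul,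
        AddMonoidAlgebra.coeff_sub, Finsupp.sub_apply] at h
      by_cases h0 : (P.coeff j).coeff μ = 0
      · rw [h0, zero_sub] at h
        exact hb (j + 1) μ (fun h0 => h (by rw [h0, neg_zero])) i
      · exact hc j μ h0 i

/-! ## The elements `G_n = (1/n) ∑_{k < n} (e^{km} + e^{-km})` -/

/-- `(1/n) ∑_{k < n} e^{km}`. -/
noncomputable def Gh (m : Q) (n : ℕ) : AddMonoidAlgebra ℂ Q :=
  ∑ k ∈ Finset.range n, AddMonoidAlgebra.single (k • m) (1 / (n : ℂ))

theorem N1_Gh (m : Q) (n : ℕ) (hn : 0 < n) : N1 (Gh m n) ≤ 1 := by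
  have h1 : ∀ T : Finset ℕ, N1 (∑ k ∈ T, AddMonoidAlgebra.single (k • m) (1 / (n : ℂ))) ≤
      T.card * (1 / (n : ℝ)) := by
    classical
    intro T
    induction T using Finset.induction_on with
    | empty => simp [N1_zero]
    | insert a T ha ih =>
      rw [Finset.sum_insert ha, Finset.card_insert_of_notMem ha]
      refine (N1_add _ _).trans ?_
      have h2 : N1 (AddMonoidAlgebra.single (a • m) (1 / (n : ℂ))) ≤ 1 / (n : ℝ) := by
        have h3 : (AddMonoidAlgebra.single (a • m) (1 / (n : ℂ))).coeff.support ⊆ {a • m} :=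
          Finsupp.support_single_subset
        rw [N1_eq h3, Finset.sum_singleton, AddMonoidAlgebra.coeff_single,
          Finsupp.single_eq_same]
        simp
      push_cast
      linarith
  have h4 := h1 (Finset.range n)
  rw [Finset.card_range] at h4
  have h5 : (n : ℝ) * (1 / n) = 1 := by
    have : (n : ℝ) ≠ 0 := by exact_mod_cast hn.ne'
    field_simp
  rw [h5] at h4
  exact h4

theorem N2_Gh (m : Q) (n : ℕ) (hn : 0 < n) (hinj : Function.Injective fun k : ℕ => k • m) :
    N2 (Gh m n) ≤ 1 / n := by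
  classical
  have hco : ∀ ν, (Gh m n).coeff ν = ∑ k ∈ Finset.range n, if k • m = ν then 1 / (n : ℂ) else 0 := by
    intro ν
    unfold Gh
    rw [AddMonoidAlgebra.coeff_sum, Finsupp.finset_sum_apply]
    refine Finset.sum_congr rfl fun k _ => ?_
    rw [AddMonoidAlgebra.coeff_single, Finsupp.single_apply]
  have hsup : (Gh m n).coeff.support ⊆ (Finset.range n).image (fun k => k • m) := by
    intro ν hν
    rw [Finsupp.mem_support_iff, hco] at hν
    obtain ⟨k, hk, hk2⟩ := Finset.exists_ne_zero_of_sum_ne_zero hν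
    rw [Finset.mem_image]
    refine ⟨k, hk, ?_⟩
    by_contra hne
    exact hk2 (if_neg hne)
  rw [N2_eq hsup, Finset.sum_image fun a _ b _ h => hinj h]
  have h1 : ∀ k ∈ Finset.range n, ‖(Gh m n).coeff (k • m)‖ ^ 2 = (1 / (n : ℝ)) ^ 2 := by
    intro k hk
    rw [hco, Finset.sum_eq_single_of_mem k hk fun j _ hj => if_neg fun h => hj (hinj h), if_pos rfl]
    simp
  rw [Finset.sum_congr rfl h1, Finset.sum_const, Finset.card_range, nsmul_eq_mul]
  have h2 : (n : ℝ) ≠ 0 := by exact_mod_cast hn.ne'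
  apply le_of_eq
  field_simp

/-- `(1/n) ∑_{k < n} (e^{km} + e^{-km})`. -/
noncomputable def Gn (m : Q) (n : ℕ) : AddMonoidAlgebra ℂ Q := Gh m n + Gh (-m) n

theorem N1_Gn (m : Q) (n : ℕ) (hn : 0 < n) : N1 (Gn m n) ≤ 2 := by
  have h1 := N1_Gh m n hn
  have h2 := N1_Gh (-m) n hn
  have h3 := N1_add (Gh m n) (Gh (-m) n)
  unfold Gn
  linarith

theorem N2_Gn (m : Q) (n : ℕ) (hn : 0 < n) (hinj : Function.Injective fun k : ℕ => k • m) :
    N2 (Gn m n) ≤ 4 / n := by
  have h1 := N2_Gh m n hn hinj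
  have hinj2 : Function.Injective fun k : ℕ => k • (-m) := by
    intro a b h
    apply hinj
    simpa using h
  have h2 := N2_Gh (-m) n hn hinj2
  have h3 := N2_sub (Gh m n) (-Gh (-m) n)
  have h4 : N2 (-Gh (-m) n) = N2 (Gh (-m) n) := by
    have h5 : (-Gh (-m) n).coeff.support = (Gh (-m) n).coeff.support := by
      rw [AddMonoidAlgebra.coeff_neg, Finsupp.support_neg]
    unfold N2
    rw [h5]
    refine Finset.sum_congr rfl fun μ _ => ?_
    rw [AddMonoidAlgebra.coeff_neg, Finsupp.neg_apply, norm_neg]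
  rw [sub_neg_eq_add, h4] at h3
  unfold Gn
  have h6 : (4 : ℝ) / n = 2 * (1 / n) + 2 * (1 / n) := by ring
  rw [h6]
  linarith

theorem dom_Gn (e : Q ≃+ Q) (m : Q) (n : ℕ) :
    AddMonoidAlgebra.domCongr ℂ ℂ e (Gn m n) = Gn (e m) n := by
  unfold Gn Gh
  rw [map_add, map_sum, map_sum]
  congr 1
  · refine Finset.sum_congr rfl fun k _ => ?_
    rw [AddMonoidAlgebra.domCongr_single, map_nsmul]
  · refine Finset.sum_congr rfl fun k _ => ?_
    rw [AddMonoidAlgebra.domCongr_single, map_nsmul, map_neg]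

end

section
variable {r : ℕ}

theorem smul_inj {m : Fin r → ℤ} (hm : m ≠ 0) : Function.Injective fun k : ℕ => k • m := by
  intro a b h
  obtain ⟨i, hi⟩ : ∃ i, m i ≠ 0 := by
    by_contra hcon
    push Not at hcon
    exact hm (funext hcon)
  have h1 := congrFun h i
  simp only [Pi.smul_apply, nsmul_eq_mul] at h1
  have h2 := mul_right_cancel₀ hi h1
  exact_mod_cast h2

theorem supp_Gh (m : Fin r → ℤ) (n : ℕ) (μ : Fin r → ℤ) (h : (Gh m n).coeff μ ≠ 0) (i : Fin r) :
    |μ i| ≤ n * |m i| := by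
  classical
  unfold Gh at h
  rw [AddMonoidAlgebra.coeff_sum, Finsupp.finset_sum_apply] at h
  obtain ⟨k, hk, hk2⟩ := Finset.exists_ne_zero_of_sum_ne_zero h
  rw [AddMonoidAlgebra.coeff_single, Finsupp.single_apply] at hk2
  have h1 : k • m = μ := by
    by_contra hne
    exact hk2 (if_neg hne)
  rw [← h1, Pi.smul_apply, nsmul_eq_mul, abs_mul, Nat.abs_cast]
  have h2 : (k : ℤ) ≤ n := by exact_mod_cast (Finset.mem_range.mp hk).le
  exact mul_le_mul_of_nonneg_right h2 (abs_nonneg _)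

theorem supp_Gn (m : Fin r → ℤ) (n : ℕ) (μ : Fin r → ℤ) (h : (Gn m n).coeff μ ≠ 0) (i : Fin r) :
    |μ i| ≤ n * |m i| := by
  unfold Gn at h
  rw [AddMonoidAlgebra.coeff_add, Finsupp.add_apply] at h
  by_cases h0 : (Gh m n).coeff μ = 0
  · rw [h0, zero_add] at h
    have := supp_Gh (-m) n μ h i
    rwa [Pi.neg_apply, abs_neg] at this
  · exact supp_Gh m n μ h0 i

theorem psi_Gn (ψ : CQ r →ₐ[ℂ] ℂ) (m : Fin r → ℤ) (n : ℕ) (hn : 0 < n) (x : ℝ) (hx : 0 < x)
    (hψ : ψ (AddMonoidAlgebra.single m 1) = (x : ℂ)) : 2 ≤ ‖ψ (Gn m n)‖ := by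
  have hs : ∀ (m' : Fin r → ℤ) (k : ℕ), ψ (AddMonoidAlgebra.single (k • m') (1 / (n : ℂ))) =
      (1 / (n : ℂ)) * ψ (AddMonoidAlgebra.single m' 1) ^ k := by
    intro m' k
    have h1 : (AddMonoidAlgebra.single (k • m') (1 / (n : ℂ)) : CQ r) =
        (1 / (n : ℂ)) • (AddMonoidAlgebra.single m' 1) ^ k := by
      rw [AddMonoidAlgebra.single_pow, one_pow, AddMonoidAlgebra.smul_single, smul_eq_mul, mul_one]
    rw [h1, map_smul, map_pow, smul_eq_mul]
  have hneg : ψ (AddMonoidAlgebra.single (-m) 1) = ((x⁻¹ : ℝ) : ℂ) := by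
    have h2 : ψ (AddMonoidAlgebra.single (-m) 1) * ψ (AddMonoidAlgebra.single m 1) = 1 := by
      rw [← map_mul, AddMonoidAlgebra.single_mul_single, neg_add_cancel, one_mul,
        ← AddMonoidAlgebra.one_def, map_one]
    rw [hψ] at h2
    have h3 : (x : ℂ) ≠ 0 := by exact_mod_cast hx.ne'
    rw [Complex.ofReal_inv]
    exact eq_inv_of_mul_eq_one_left h2
  have h4 : ψ (Gn m n) = ((∑ k ∈ Finset.range n, (1 / (n : ℝ)) * (x ^ k + x⁻¹ ^ k) : ℝ) : ℂ) := by
    unfold Gn Gh
    rw [map_add, map_sum, map_sum, ← Finset.sum_add_distrib, Complex.ofReal_sum]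
    refine Finset.sum_congr rfl fun k _ => ?_
    rw [hs, hs, hψ, hneg]
    push_cast
    ring
  have h5 : ∀ k : ℕ, 2 ≤ x ^ k + x⁻¹ ^ k := by
    intro k
    have h6 : 0 < x ^ k := by positivity
    have h7 : x ^ k * x⁻¹ ^ k = 1 := by
      rw [← mul_pow, mul_inv_cancel₀ hx.ne', one_pow]
    have h8 : 0 < x⁻¹ ^ k := by positivity
    nlinarith [sq_nonneg (x ^ k - x⁻¹ ^ k)]
  have h9 : (2 : ℝ) ≤ ∑ k ∈ Finset.range n, (1 / (n : ℝ)) * (x ^ k + x⁻¹ ^ k) := by
    have h10 : ∑ k ∈ Finset.range n, (1 / (n : ℝ)) * 2 ≤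
        ∑ k ∈ Finset.range n, (1 / (n : ℝ)) * (x ^ k + x⁻¹ ^ k) :=
      Finset.sum_le_sum fun k _ => mul_le_mul_of_nonneg_left (h5 k) (by positivity)
    rw [Finset.sum_const, Finset.card_range, nsmul_eq_mul] at h10
    have h11 : (n : ℝ) ≠ 0 := by exact_mod_cast hn.ne'
    have h12 : (n : ℝ) * (1 / n * 2) = 2 := by field_simp
    rwa [h12] at h10
  rw [h4, Complex.norm_real, Real.norm_of_nonneg (by linarith)]
  exact h9

/-! ## Hermitian characters -/

/-- `p^*(μ) = conj (p (-μ))`. -/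
noncomputable def st (p : CQ r) : CQ r :=
  AddMonoidAlgebra.ofCoeff (Finsupp.mapRange (starRingEnd ℂ) (map_zero _)
    (AddMonoidAlgebra.domCongr ℂ ℂ (AddEquiv.neg (Fin r → ℤ)) p).coeff)

theorem st_coeff (p : CQ r) (μ : Fin r → ℤ) :
    (st p).coeff μ = (starRingEnd ℂ) (p.coeff (-μ)) := by
  unfold st
  rw [AddMonoidAlgebra.coeff_ofCoeff, Finsupp.mapRange_apply, AddMonoidAlgebra.coeff_domCongr]
  rfl

theorem st_add (p q : CQ r) : st (p + q) = st p + st q := by
  ext μ
  rw [AddMonoidAlgebra.coeff_add, Finsupp.add_apply, st_coeff, st_coeff, st_coeff,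
    AddMonoidAlgebra.coeff_add, Finsupp.add_apply, map_add]

theorem st_single (ν : Fin r → ℤ) (c : ℂ) :
    st (AddMonoidAlgebra.single ν c) = AddMonoidAlgebra.single (-ν) ((starRingEnd ℂ) c) := by
  classical
  ext μ
  rw [st_coeff, AddMonoidAlgebra.coeff_single, AddMonoidAlgebra.coeff_single,
    Finsupp.single_apply, Finsupp.single_apply]
  by_cases h : ν = -μ
  · rw [if_pos h, if_pos (by rw [h, neg_neg])]
  · rw [if_neg h, if_neg (fun h2 => h (by rw [← h2, neg_neg])), map_zero]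

theorem st_mem {C : Matrix (Fin r) (Fin r) ℤ} (hC : SimplyLaced C) {a : CQ r}
    (ha : a ∈ invAlg C) : st a ∈ invAlg C := by
  rw [mem_invAlg hC] at ha ⊢
  intro i μ
  rw [st_coeff, st_coeff]
  have h := ha i (-μ)
  rw [ip_neg_left, neg_smul, sub_neg_eq_add] at h
  rw [← h]
  congr 2
  abel

/-- The character `μ ↦ conj (ψ (e^{-μ}))`. -/
noncomputable def stc (ψ : CQ r →ₐ[ℂ] ℂ) : CQ r →ₐ[ℂ] ℂ :=
  AddMonoidAlgebra.lift ℂ ℂ (Fin r → ℤ)
    { toFun := fun x => (starRingEnd ℂ) (ψ (AddMonoidAlgebra.single (-(Multiplicative.toAdd x)) 1))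
      map_one' := by
        rw [toAdd_one, neg_zero, ← AddMonoidAlgebra.one_def, map_one, map_one]
      map_mul' := by
        intro x y
        rw [toAdd_mul, neg_add, ← map_mul, ← map_mul, AddMonoidAlgebra.single_mul_single, one_mul] }

theorem stc_single (ψ : CQ r →ₐ[ℂ] ℂ) (ν : Fin r → ℤ) (c : ℂ) :
    stc ψ (AddMonoidAlgebra.single ν c) =
      c * (starRingEnd ℂ) (ψ (AddMonoidAlgebra.single (-ν) 1)) := by
  unfold stc
  rw [AddMonoidAlgebra.lift_single]
  rfl

theorem stc_apply (ψ : CQ r →ₐ[ℂ] ℂ) (p : CQ r) : stc ψ p = (starRingEnd ℂ) (ψ (st p)) := by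
  induction p using AddMonoidAlgebra.induction_linear with
  | zero =>
    have h : st (0 : CQ r) = 0 := by
      ext μ
      rw [st_coeff]
      simp
    rw [h, map_zero, map_zero, map_zero]
  | add p q hp hq => rw [map_add, st_add, map_add, map_add, hp, hq]
  | single ν c =>
    rw [stc_single, st_single]
    have h1 : (AddMonoidAlgebra.single (-ν) ((starRingEnd ℂ) c) : CQ r) =
        (starRingEnd ℂ) c • AddMonoidAlgebra.single (-ν) 1 := by
      rw [AddMonoidAlgebra.smul_single, smul_eq_mul, mul_one]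
    rw [h1, map_smul, smul_eq_mul, map_mul, Complex.conj_conj]

end

end Pool.Agent.TMP.H29
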