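import Pool.Agent.Helper29_TMP.StE
import Pool.Agent.Helper59_DEN.Roots

/-!
# Characters of the algebra of invariants: extension to the group algebra, uniqueness up to `W`
-/

open scoped BigOperators Pointwise

namespace Pool.Agent.TMP.H29

open Pool.Agent.DEN Pool.Agent.TMP

/-- Extension of a character along an integral extension. -/
theorem exists_ext_aux {A B : Type} [CommRing A] [CommRing B] [Algebra ℂ A] [Algebra ℂ B]
    [Algebra A B] [IsScalarTower ℂ A B] [Algebra.IsIntegral A B]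
    (hinj : Function.Injective (algebraMap A B)) (χ : A →ₐ[ℂ] ℂ) :
    ∃ ψ : B →ₐ[ℂ] ℂ, ∀ a, ψ (algebraMap A B a) = χ a := by
  have hsur : Function.Surjective χ := fun z => ⟨algebraMap ℂ A z, by simp⟩
  have hmax : (RingHom.ker χ).IsMaximal := RingHom.ker_isMaximal_of_surjective χ hsur
  have hker : RingHom.ker (algebraMap A B) ≤ RingHom.ker χ := by
    rw [(RingHom.injective_iff_ker_eq_bot _).mp hinj]
    exact bot_le
  obtain ⟨M, hM, hMc⟩ := Ideal.exists_ideal_over_maximal_of_isIntegral (RingHom.ker χ) hker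
  have hf : ∀ a : A, Ideal.Quotient.mk M (algebraMap A B a) =
      algebraMap ℂ (B ⧸ M) (χ a) := by
    intro a
    have h1 : a - algebraMap ℂ A (χ a) ∈ RingHom.ker χ := by
      rw [RingHom.mem_ker, map_sub, AlgHom.commutes]
      simp
    rw [← hMc, Ideal.mem_comap, map_sub, ← IsScalarTower.algebraMap_apply ℂ A B] at h1
    have h2 := Ideal.Quotient.eq.mpr h1
    rw [h2]
    rfl
  let _ : Field (B ⧸ M) := Ideal.Quotient.field M
  have hint : Algebra.IsIntegral ℂ (B ⧸ M) := by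
    refine ⟨fun x => ?_⟩
    obtain ⟨b, rfl⟩ := Ideal.Quotient.mk_surjective x
    obtain ⟨f, hf1, hf2⟩ := Algebra.IsIntegral.isIntegral (R := A) b
    refine ⟨f.map (χ : A →+* ℂ), hf1.map _, ?_⟩
    rw [Polynomial.eval₂_map]
    have h3 : (algebraMap ℂ (B ⧸ M)).comp (χ : A →+* ℂ) =
        (Ideal.Quotient.mk M).comp (algebraMap A B) := by
      ext a
      exact (hf a).symm
    rw [h3, ← Polynomial.hom_eval₂, hf2, map_zero]
  have hbij : Function.Bijective (algebraMap ℂ (B ⧸ M)) :=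
    IsAlgClosed.algebraMap_bijective_of_isIntegral
  let E : ℂ ≃ₐ[ℂ] (B ⧸ M) := AlgEquiv.ofBijective (Algebra.ofId ℂ (B ⧸ M)) hbij
  refine ⟨(E.symm : (B ⧸ M) →ₐ[ℂ] ℂ).comp (Ideal.Quotient.mkₐ ℂ M), fun a => ?_⟩
  have h4 : E (χ a) = Ideal.Quotient.mk M (algebraMap A B a) := (hf a).symm
  change E.symm (Ideal.Quotient.mk M (algebraMap A B a)) = χ a
  rw [← h4, AlgEquiv.symm_apply_apply]

section
variable {r : ℕ} {C : Matrix (Fin r) (Fin r) ℤ} (hC : SimplyLaced C)

/-- The Weyl group, acting on the group algebra. -/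
noncomputable def WA : Subgroup (CQ r ≃ₐ[ℂ] CQ r) :=
  Subgroup.closure (Set.range fun i => AddMonoidAlgebra.domCongr ℂ ℂ (srefE hC i))

theorem WA_dom {g : CQ r ≃ₐ[ℂ] CQ r} (hg : g ∈ WA hC) :
    ∃ e : (Fin r → ℤ) ≃+ (Fin r → ℤ), (∀ x y, ip C (e x) (e y) = ip C x y) ∧
      g = AddMonoidAlgebra.domCongr ℂ ℂ e := by
  induction hg using Subgroup.closure_induction with
  | mem x hx =>
    obtain ⟨i, rfl⟩ := hx
    exact ⟨srefE hC i, ip_sref hC i, rfl⟩
  | one =>
    refine ⟨AddEquiv.refl _, fun _ _ => rfl, ?_⟩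
    rw [AddMonoidAlgebra.domCongr_refl]
    rfl
  | mul x y _ _ hx hy =>
    obtain ⟨e, he, rfl⟩ := hx
    obtain ⟨f, hf, rfl⟩ := hy
    refine ⟨f.trans e, fun a b => ?_, ?_⟩
    · exact (he _ _).trans (hf _ _)
    · rw [← AddMonoidAlgebra.trans_domCongr_domCongr]
      rfl
  | inv x _ hx =>
    obtain ⟨e, he, rfl⟩ := hx
    refine ⟨e.symm, fun a b => ?_, rfl⟩
    have h := he (e.symm a) (e.symm b)
    rw [e.apply_symm_apply, e.apply_symm_apply] at h
    exact h.symm

theorem eq_of_al {e f : (Fin r → ℤ) ≃+ (Fin r → ℤ)} (h : ∀ i, e (al i) = f (al i)) : e = f := by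
  apply AddEquiv.ext
  intro x
  have hx : x = ∑ i, x i • al i := by
    funext j
    simp [al, Finset.sum_apply, Pi.single_apply]
  rw [hx, map_sum, map_sum]
  refine Finset.sum_congr rfl fun i _ => ?_
  rw [map_zsmul, map_zsmul, h i]

theorem WA_finite : Finite (WA hC) := by
  classical
  have hR : Finite (Rt C) := Pool.Agent.DEN.H59.rootFin r C hC
  choose e he1 he2 using fun g : WA hC => WA_dom hC g.2
  let F : WA hC → (Rt C → Rt C) := fun g β => ⟨e g β.1, by rw [he1, β.2]⟩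
  refine Finite.of_injective F ?_
  intro g g' h
  have h1 : e g = e g' := by
    apply eq_of_al
    intro i
    have h2 := congrFun h (hC.sr i)
    exact congrArg Subtype.val h2
  apply Subtype.ext
  rw [he2 g, he2 g', h1]

theorem WA_inv {g : CQ r ≃ₐ[ℂ] CQ r} (hg : g ∈ WA hC) (a : CQ r) (ha : a ∈ invAlg C) :
    g a = a := by
  induction hg using Subgroup.closure_induction with
  | mem x hx =>
    obtain ⟨i, rfl⟩ := hx
    have h := ha i
    rw [mapDomain_srefE hC] at h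
    exact h
  | one => rfl
  | mul x y _ _ hx hy =>
    rw [AlgEquiv.mul_apply, hy, hx]
  | inv x _ hx =>
    have h : x⁻¹ (x a) = a := by
      rw [← AlgEquiv.mul_apply, inv_mul_cancel]
      rfl
    rw [hx] at h
    exact h

theorem mem_of_WA {a : CQ r} (h : ∀ g ∈ WA hC, g a = a) : a ∈ invAlg C := by
  intro i
  rw [mapDomain_srefE hC]
  exact h _ (Subgroup.subset_closure ⟨i, rfl⟩)

instance : SMulCommClass (WA hC) (invAlg C) (CQ r) where
  smul_comm g a b := by
    change g.1 (a.1 * b) = a.1 * g.1 b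
    rw [map_mul, WA_inv hC g.2 a.1 a.2]

instance : Algebra.IsInvariant (invAlg C) (CQ r) (WA hC) where
  isInvariant b hb := by
    refine ⟨⟨b, mem_of_WA hC fun g hg => hb ⟨g, hg⟩⟩, rfl⟩

include hC in
/-- Every character of the invariants extends. -/
theorem exists_ext (χ : invAlg C →ₐ[ℂ] ℂ) : ∃ ψ : CQ r →ₐ[ℂ] ℂ, ∀ a : invAlg C, ψ a.1 = χ a := by
  have := WA_finite hC
  have : Algebra.IsIntegral (invAlg C) (CQ r) :=
    Algebra.IsInvariant.isIntegral (invAlg C) (CQ r) (WA hC)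
  exact exists_ext_aux (A := invAlg C) (B := CQ r) (Subtype.val_injective) χ

/-- Two extensions of a character are conjugate under the Weyl group. -/
theorem conj_ext (ψ ψ' : CQ r →ₐ[ℂ] ℂ) (h : ∀ a : invAlg C, ψ a.1 = ψ' a.1) :
    ∃ g ∈ WA hC, ∀ b, ψ' b = ψ (g b) := by
  have := WA_finite hC
  have hp : (RingHom.ker ψ).IsPrime := RingHom.ker_isPrime ψ
  have hp' : (RingHom.ker ψ').IsPrime := RingHom.ker_isPrime ψ'
  have hu : (RingHom.ker ψ).under (invAlg C) = (RingHom.ker ψ').under (invAlg C) := by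
    ext a
    change ψ a.1 = 0 ↔ ψ' a.1 = 0
    rw [h a]
  obtain ⟨g, hg⟩ := Algebra.IsInvariant.exists_smul_of_under_eq (invAlg C) (CQ r) (WA hC)
    (RingHom.ker ψ) (RingHom.ker ψ') hu
  refine ⟨g⁻¹.1, (g⁻¹).2, fun b => ?_⟩
  have h1 : b - algebraMap ℂ (CQ r) (ψ' b) ∈ RingHom.ker ψ' := by
    rw [RingHom.mem_ker, map_sub, AlgHom.commutes]
    simp
  rw [hg, Ideal.mem_pointwise_smul_iff_inv_smul_mem, RingHom.mem_ker] at h1
  have h2 : ψ ((g⁻¹).1 (b - algebraMap ℂ (CQ r) (ψ' b))) = 0 := h1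
  rw [map_sub, map_sub, AlgEquiv.commutes, AlgHom.commutes, sub_eq_zero] at h2
  exact h2.symm

end

end Pool.Agent.TMP.H29
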