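import Pool.Agent.Helper29_TMP.Av
import Pool.Agent.Helper84_TMP.Stmt

/-!
# INV: the inversion at the identity
-/

open scoped BigOperators

namespace Pool.Agent.TMP.H29

open Pool.Agent.DEN Pool.Agent.TMP

theorem av_eq {G X : Type} [Group G] [MulAction G X] (J : Subgroup G) (f : X → ℂ) (z : X) :
    av J f z = Av J f z := by
  have h : {y | ∃ j ∈ J, y = j • z} = MulAction.orbit J z := by
    ext y
    rw [mem_orb]
    constructor
    · rintro ⟨j, hj, rfl⟩
      exact ⟨j, hj, rfl⟩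
    · rintro ⟨j, hj, rfl⟩
      exact ⟨j, hj, rfl⟩
  unfold av Av
  rw [h]

/-- The orbit, with the instance of the action of a subgroup. -/
def Orb {G X : Type} [Group G] [MulAction G X] (J : Subgroup G) (z : X) : Set X :=
  MulAction.orbit J z

theorem mem_Orb {G X : Type} [Group G] [MulAction G X] {J : Subgroup G} {y z : X} :
    y ∈ Orb J z ↔ ∃ g ∈ J, g • z = y := mem_orb

theorem Av_orb {G X : Type} [Group G] [MulAction G X] (H : Subgroup G) (h : X → ℂ) {y z : X}
    (hy : y ∈ Orb H z) : Av H h y = Av H h z := Av_congr_orb H h hy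

theorem Av_cst {G X : Type} [Group G] [MulAction G X] (H : Subgroup G) (h : X → ℂ) (z : X)
    (hfin : (Orb H z).Finite) (c : ℂ) (hc : ∀ y ∈ Orb H z, h y = c) : Av H h z = c :=
  Av_const H h z hfin c hc

theorem Av_def {G X : Type} [Group G] [MulAction G X] (H : Subgroup G) (h : X → ℂ) (z : X) :
    Av H h z = (∑ᶠ y ∈ Orb H z, h y) / Nat.card (Orb H z) := rfl

theorem orb_set {G X : Type} [Group G] [MulAction G X] (J : Subgroup G) (z : X) :
    {y | ∃ j ∈ J, y = j • z} = Orb J z := by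
  ext y
  rw [mem_Orb]
  constructor
  · rintro ⟨j, hj, rfl⟩
    exact ⟨j, hj, rfl⟩
  · rintro ⟨j, hj, rfl⟩
    exact ⟨j, hj, rfl⟩

theorem nrm_closure {G : Type} [Group G] (S : Set G) (V : Subgroup G) (hinv : ∀ s ∈ S, s⁻¹ ∈ S)
    (h : ∀ s ∈ S, ∀ v ∈ V, s * v * s⁻¹ ∈ V) :
    ∀ j ∈ Subgroup.closure S, ∀ v ∈ V, j * v * j⁻¹ ∈ V := by
  have key : ∀ j ∈ Subgroup.closure S, (∀ v ∈ V, j * v * j⁻¹ ∈ V) ∧ (∀ v ∈ V, j⁻¹ * v * j ∈ V) := by
    intro j hj
    induction hj using Subgroup.closure_induction with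
    | mem x hx =>
      refine ⟨h x hx, fun v hv => ?_⟩
      have h1 := h x⁻¹ (hinv x hx) v hv
      rwa [inv_inv] at h1
    | one => exact ⟨fun v hv => by simpa using hv, fun v hv => by simpa using hv⟩
    | mul x y _ _ hx hy =>
      refine ⟨fun v hv => ?_, fun v hv => ?_⟩
      · have h1 := hx.1 _ (hy.1 v hv)
        have h2 : x * (y * v * y⁻¹) * x⁻¹ = x * y * v * (x * y)⁻¹ := by group
        rwa [h2] at h1
      · have h1 := hy.2 _ (hx.2 v hv)
        have h2 : y⁻¹ * (x⁻¹ * v * x) * y = (x * y)⁻¹ * v * (x * y) := by group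
        rwa [h2] at h1
    | inv x _ hx =>
      refine ⟨fun v hv => ?_, fun v hv => ?_⟩
      · rw [inv_inv]
        exact hx.2 v hv
      · rw [inv_inv]
        exact hx.1 v hv
  exact fun j hj => (key j hj).1

section
variable {r : ℕ} {C : Matrix (Fin r) (Fin r) ℤ} (hC : SimplyLaced C) {K : Type} [Field K]

theorem hv_sub (l : Fin r → ℤ) (m : ℤ) (i : Fin r) : hv (l - m • al i) = hv l - m := by
  have h1 : ∑ k : Fin r, (al i : Fin r → ℤ) k = 1 := by simp [al]
  simp only [hv, Pi.sub_apply, Pi.smul_apply, smul_eq_mul, Finset.sum_sub_distrib,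
    ← Finset.mul_sum, h1, mul_one]

include hC in
theorem sf_sf (i : Fin r) (l : Fin r → ℤ) : sf C i (sf C i l) = l := by
  unfold sf
  rw [ip_sub_right, ip_smul_right, ip_al_al, hC.diag]
  module

include hC in
theorem ip_sf (i : Fin r) (l : Fin r → ℤ) : ip C (al i) (sf C i l) = -ip C (al i) l := by
  unfold sf
  rw [ip_sub_right, ip_smul_right, ip_al_al, hC.diag]
  ring

theorem xi_mem_Ug (i : Fin r) (a : FF K) : xi hC i a ∈ Ug C K := by
  refine xg_Ug hC (fun j => ?_) a
  simp only [SimplyLaced.sr_val, al, Pi.single_apply]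
  split_ifs <;> norm_num

/-- The mean value over the second line. -/
theorem mean_line [Finite K] (hCls : ClsStmt) (hHor : HorStmt) {D : (Fin r → ℤ) → ℂ}
    (hD : IsDel C (Nat.card K) D) (h : XX C K → ℂ) (hU : ∀ u ∈ Ug C K, ∀ x, h (u • x) = h x)
    (hT : ∀ l, h (tp hC K l) = (Nat.card K : ℂ) ^ hv l * D l) (i : Fin r) (l : Fin r → ℤ)
    (hl : ip C (al i) l < 0) :
    (∑ᶠ y ∈ {y : XX C K | ∃ b ∈ Bd K (-1), y = wi hC K i • xi hC i b • tp hC K l}, h y) /
      Nat.card {y : XX C K | ∃ b ∈ Bd K (-1), y = wi hC K i • xi hC i b • tp hC K l} =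
      (Nat.card K : ℂ) ^ hv l * D l := by
  set n := ip C (al i) l with hn
  set q : ℂ := (Nat.card K : ℂ) with hq
  have hq0 : q ≠ 0 := by
    rw [hq]
    exact_mod_cast (Nat.card_pos (α := K)).ne'
  set P : FF K → XX C K := fun b => wi hC K i • xi hC i b • tp hC K l with hP
  have hset : {y : XX C K | ∃ b ∈ Bd K (-1), y = wi hC K i • xi hC i b • tp hC K l} =
      P '' Bd K (-1) := by
    ext y
    constructor
    · rintro ⟨b, hb, rfl⟩
      exact ⟨b, hb, rfl⟩
    · rintro ⟨b, hb, rfl⟩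
      exact ⟨b, hb, rfl⟩
  have hPinj : ∀ b b', P b = P b' ↔ b - b' ∈ Bd K n := by
    intro b b'
    rw [hP]
    simp only
    rw [smul_left_cancel_iff]
    constructor
    · intro hbb
      have h1 := (hHor r C hC K).2.1 i b b' l 1 (one_mem _)
      rw [one_smul] at h1
      exact h1 hbb
    · intro hbb
      have h1 := xg_tp hC l (hC.sr i) (a := b - b') hbb
      have h2 : xi hC i b = xi hC i b' * xi hC i (b - b') := by
        unfold xi
        rw [← xg_add]
        congr 1
        ring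
      rw [h2, mul_smul]
      congr 1
  have hval0 : ∀ b ∈ Bd K n, h (P b) = q ^ hv (l - n • al i) * D (l - n • al i) := by
    intro b hb
    rw [hP]
    simp only
    have h1 : xi hC i b • tp hC K l = tp hC K l := xg_tp hC l (hC.sr i) hb
    rw [h1, wi_tp hC, hT]
    rfl
  have hvalm : ∀ m, n < m → m ≤ -1 → ∀ b ∈ Bd K m, b ∉ Bd K (m - 1) →
      h (P b) = q ^ hv (l - m • al i) * D (l - m • al i) := by
    intro m hm _ b hb hb'
    rw [hP]
    simp only
    rw [rk1 hC i l hm hb hb', hU _ (xi_mem_Ug hC i _), hT]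
  obtain ⟨hfin, hsum⟩ := hCls K (XX C K) n n (-1) le_rfl (by omega) P hPinj h
    (fun m => q ^ hv (l - m • al i) * D (l - m • al i)) hval0 hvalm
  obtain ⟨_, hcard⟩ := hCls K (XX C K) n (-1) (-1) (by omega) le_rfl P hPinj (fun _ => 1)
    (fun _ => 1) (fun _ _ => rfl) (fun m h1 h2 => by omega)
  have hc : (Nat.card (P '' Bd K (-1)) : ℂ) = q ^ (-1 - n) := by
    have h1 : ∑ᶠ y ∈ P '' Bd K (-1), (1 : ℂ) = (Nat.card (P '' Bd K (-1)) : ℂ) := by
      rw [finsum_mem_eq_finite_toFinset_sum _ hfin, Finset.sum_const,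
        ← Set.ncard_eq_toFinset_card _ hfin, nsmul_eq_mul, mul_one]
      rfl
    rw [← h1, hcard, Finset.Ioc_self, Finset.sum_empty, add_zero, mul_one]
  rw [hset, hc, hsum, ← hq]
  have hr := hD.rcr i (sf C i l) (by rw [ip_sf hC]; omega)
  rw [sf_sf hC, ip_sf hC, ← hn] at hr
  have hr2 : (((Nat.card K : ℝ) : ℂ))⁻¹ = q⁻¹ := by rw [hq, Complex.ofReal_natCast]
  have hr' : q⁻¹ * D l = D (sf C i l) +
      (1 - q⁻¹) * ∑ j ∈ Finset.Ico 1 (-n).toNat, D (sf C i l - (j : ℤ) • al i) := by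
    rw [← hr2]
    exact hr
  have hsum2 : ∑ m ∈ Finset.Ioc n (-1), (q - 1) * q ^ (m - 1 - n) *
      (q ^ hv (l - m • al i) * D (l - m • al i)) =
      q ^ (hv l - n) * ((1 - q⁻¹) * ∑ j ∈ Finset.Ico 1 (-n).toNat, D (sf C i l - (j : ℤ) • al i)) := by
    rw [Finset.mul_sum, Finset.mul_sum]
    refine (Finset.sum_bij (fun (j : ℕ) _ => n + (j : ℤ)) ?_ ?_ ?_ ?_).symm
    · intro j hj
      rw [Finset.mem_Ico] at hj
      rw [Finset.mem_Ioc]
      omega
    · intro a _ b _ hab
      have hab' : n + (a : ℤ) = n + (b : ℤ) := hab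
      omega
    · intro m hm
      rw [Finset.mem_Ioc] at hm
      refine ⟨(m - n).toNat, ?_, ?_⟩
      · rw [Finset.mem_Ico]
        omega
      · change n + (((m - n).toNat : ℕ) : ℤ) = m
        omega
    · intro j hj
      have h1 : sf C i l - (j : ℤ) • al i = l - (n + (j : ℤ)) • al i := by
        unfold sf
        rw [← hn]
        module
      rw [h1, hv_sub]
      have h2 : q ^ (n + (j : ℤ) - 1 - n) * q ^ (hv l - (n + (j : ℤ))) = q ^ (hv l - n) * q⁻¹ := by
        rw [← zpow_add₀ hq0, ← zpow_sub_one₀ hq0]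
        congr 1
        ring
      calc q ^ (hv l - n) * ((1 - q⁻¹) * D (l - (n + (j : ℤ)) • al i)) =
          (q - 1) * (q ^ (hv l - n) * q⁻¹) * D (l - (n + (j : ℤ)) • al i) := by
            field_simp
        _ = (q - 1) * q ^ (n + (j : ℤ) - 1 - n) *
            (q ^ (hv l - (n + (j : ℤ))) * D (l - (n + (j : ℤ)) • al i)) := by
            rw [← h2]; ring
  rw [hsum2, sub_self, zpow_zero, one_mul, hv_sub]
  have h3 : l - n • al i = sf C i l := rfl
  rw [h3, ← mul_add, ← hr']
  have h4 : q ^ (hv l - n) = q ^ hv l * q ^ (-1 - n) * q := by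
    rw [← zpow_add₀ hq0, ← zpow_add_one₀ hq0]
    congr 1
    ring
  have h5 : q ^ (-1 - n) ≠ 0 := zpow_ne_zero _ hq0
  rw [h4]
  field_simp

end

theorem inv (hKfin : DEN.TMP.KfinStmt) (hKer : TMP.KerStmt) (hAvg : AvgStmt) (hLin : LinStmt)
    (hCls : ClsStmt) (hVis : VisStmt) (hIan : IanStmt) (hKgn : KgnStmt) (hCat : CatStmt)
    (hHor : HorStmt) : InvStmt := by
  classical
  intro r C hC K _ _ D hD k hk
  set q : ℂ := (Nat.card K : ℂ) with hq
  have hq0 : q ≠ 0 := by
    rw [hq]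
    exact_mod_cast (Nat.card_pos (α := K)).ne'
  -- the function `h`
  choose u hu lof hlof using fun x : XX C K => iwa hC x
  have huniq : ∀ (x : XX C K) (l : Fin r → ℤ), x ∈ Hor hC K l ↔ lof x = l := by
    intro x l
    constructor
    · rintro ⟨v, hv, hx⟩
      have h1 := hlof x
      refine (hHor r C hC K).1 (v⁻¹ * u x) (mul_mem (inv_mem hv) (hu x)) _ _ ?_
      rw [mul_smul, ← h1, hx, inv_smul_smul]
    · rintro rfl
      exact ⟨u x, hu x, hlof x⟩
  set h : XX C K → ℂ := fun x => q ^ hv (lof x) * D (lof x) with hh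
  have hU : ∀ v ∈ Ug C K, ∀ x, h (v • x) = h x := by
    intro v hv x
    have h1 : lof (v • x) = lof x := by
      rw [← huniq]
      refine ⟨v * u x, mul_mem hv (hu x), ?_⟩
      rw [mul_smul, ← hlof x]
    rw [hh]
    simp only [h1]
  have hlt : ∀ l, lof (tp hC K l) = l := by
    intro l
    rw [← huniq]
    exact ⟨1, one_mem _, (one_smul _ _).symm⟩
  have hT : ∀ l, h (tp hC K l) = q ^ hv l * D l := by
    intro l
    rw [hh]
    simp only [hlt]
  obtain ⟨V1, V2, V3, V4, V5, V6⟩ := hVis r C hC K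
  -- finiteness of orbits
  have hfinK : ∀ (J : Subgroup (grp C K)), J ≤ maxK C K → ∀ z : XX C K,
      (Orb J z).Finite := by
    intro J hJ z
    obtain ⟨g, rfl⟩ := exists_smul z
    refine (hKfin r C hC K g).subset ?_
    intro y hy
    obtain ⟨j, hj, rfl⟩ := mem_Orb.mp hy
    refine ⟨j, hJ hj, ?_⟩
    unfold oo
    rw [smul_pt, smul_pt, mul_one]
    rfl
  have hIi : ∀ i, Ii hC K i ≤ maxK C K := fun i => (V3 i).2.1.trans (V3 i).2.2.1
  -- the rank one claim
  have hgen : ∀ (i : Fin r) (s : grp C K), s ∈ ({g | ∃ a ∈ Bd K 0, g = xi hC i a} ∪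
      {g | ∃ a ∈ Bd K (-1), g = yi hC i a} : Set (grp C K)) → s⁻¹ ∈ ({g | ∃ a ∈ Bd K 0, g = xi hC i a} ∪
      {g | ∃ a ∈ Bd K (-1), g = yi hC i a} : Set (grp C K)) := by
    intro i s hs
    rcases hs with ⟨a, ha, rfl⟩ | ⟨a, ha, rfl⟩
    · left
      exact ⟨-a, (H22.hF1 K).2.2.1 _ _ ha, by unfold xi; rw [xg_inv]⟩
    · right
      exact ⟨-a, (H22.hF1 K).2.2.1 _ _ ha, by unfold yi; rw [xg_inv]⟩
  have hrk : ∀ (i : Fin r) (z : XX C K), Av (Ii hC K i) h (wi hC K i • z) = Av (Ii hC K i) h z := by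
    intro i
    have hnorm : ∀ j ∈ Ii hC K i, ∀ v ∈ Un C K i, j * v * j⁻¹ ∈ Un C K i := by
      refine nrm_closure _ _ (hgen i) ?_
      rintro s (⟨a, _, rfl⟩ | ⟨a, _, rfl⟩) v hv
      · exact xi_Un hC i hv a
      · exact V5 i v hv a
    have hun : ∀ v ∈ Un C K i, ∀ z : XX C K, Av (Ii hC K i) h (v • z) = Av (Ii hC K i) h z := by
      intro v hv z
      rw [← av_eq, ← av_eq]
      refine hAvg.1 _ _ _ _ _ _ _ _ ?_ ?_ ?_
      · rw [orb_set]
        exact hfinK _ (hIi i) _
      · rw [orb_set]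
        exact hfinK _ (hIi i) _
      · intro j hj
        have h1 : j • v • z = (j * v * j⁻¹) • j • z := by
          rw [smul_smul, smul_smul]
          congr 1
          group
        rw [h1, hU _ (Un_le i (hnorm j hj v hv))]
    have hwun : ∀ v ∈ Un C K i, ∀ z : XX C K,
        Av (Ii hC K i) h (wi hC K i • v • z) = Av (Ii hC K i) h (wi hC K i • z) := by
      intro v hv z
      have h1 : wi hC K i • v • z = (wi hC K i * v * (wi hC K i)⁻¹) • wi hC K i • z := by
        rw [smul_smul, smul_smul]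
        congr 1
        group
      rw [h1, hun _ (wi_Un hC i hv)]
    -- the mean values on the two lines
    have hline : ∀ l : Fin r → ℤ, ip C (al i) l ≤ 0 → ∀ y : XX C K,
        ((∃ b ∈ Bd K 0, y = xi hC i b • tp hC K l) ∨
          (∃ b ∈ Bd K (-1), y = wi hC K i • xi hC i b • tp hC K l)) →
        Av (Ii hC K i) h y = q ^ hv l * D l := by
      intro l hl y hy
      obtain ⟨L1, L2, _⟩ := (hLin r C hC K i).1 l hl
      rw [orb_set] at L1 L2
      have hfirst : Av (Ii hC K i) h (tp hC K l) = q ^ hv l * D l := by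
        refine Av_cst _ _ _ (hfinK _ (hIi i) _) _ ?_
        intro y hy
        rw [L1] at hy
        obtain ⟨b, _, rfl⟩ := hy
        rw [hU _ (xi_mem_Ug hC i b), hT]
      rcases hy with ⟨b, hb, rfl⟩ | ⟨b, hb, rfl⟩
      · have h1 : xi hC i b • tp hC K l ∈ Orb (Ii hC K i) (tp hC K l) := by
          rw [L1]
          exact ⟨b, hb, rfl⟩
        rw [Av_orb _ _ h1, hfirst]
      · have h1 : wi hC K i • xi hC i b • tp hC K l ∈
            Orb (Ii hC K i) (tp hC K (sf C i l)) := by
          rw [L2]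
          exact ⟨b, hb, rfl⟩
        rw [Av_orb _ _ h1]
        rcases hl.lt_or_eq with hl' | hl'
        · rw [Av_def, L2]
          exact mean_line hC hCls hHor hD h hU hT i l hl'
        · have h2 : sf C i l = l := by
            unfold sf
            rw [hl', zero_smul, sub_zero]
          rw [h2, hfirst]
    intro z
    obtain ⟨v, hv, m, rfl⟩ := iwa hC z
    obtain ⟨b, v', hv', rfl⟩ := ups hC i hv
    rw [mul_smul, hun v' hv', hwun v' hv']
    obtain ⟨l, hl, hb⟩ := (hLin r C hC K i).2 b m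
    obtain ⟨_, _, L3⟩ := (hLin r C hC K i).1 l hl
    rw [hline l hl _ hb, hline l hl _ (L3 _ hb).1]
  -- the mean value over the Iwahori orbits is invariant under `K`
  have hsup : ∀ i, Vi hC K i ⊔ Ii hC K i = Iw hC K := by
    intro i
    apply le_antisymm (sup_le (V3 i).1 (V3 i).2.1)
    intro g hg
    obtain ⟨v, hv, j, hj, rfl⟩ := (V3 i).2.2.2 g hg
    exact mul_mem (Subgroup.mem_sup_left hv) (Subgroup.mem_sup_right hj)
  have hwF : ∀ (i : Fin r) (z : XX C K), Av (Iw hC K) h (wi hC K i • z) = Av (Iw hC K) h z := by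
    intro i z
    rw [← hsup i]
    refine Av_main (Vi hC K i) (Ii hC K i) (fun z => ?_) ?_ (wi hC K i) (fun v hv => (V2 i v hv).1)
      (fun v hv => (V2 i v hv).2) h (hrk i) z
    · have h1 := hfinK (Vi hC K i ⊔ Ii hC K i) (by rw [hsup i]; exact (V3 i).2.2.1) z
      exact h1
    · refine nrm_closure _ _ (hgen i) ?_
      rintro s (⟨a, ha, rfl⟩ | ⟨a, ha, rfl⟩) v hv
      · exact (V1 i v hv a ha).1
      · exact (V1 i v hv a ((H22.hF1 K).2.2.2.2.1 _ _ _ (by norm_num) ha)).2
  let S : Subgroup (grp C K) :=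
    { carrier := {g | ∀ z : XX C K, Av (Iw hC K) h (g • z) = Av (Iw hC K) h z}
      mul_mem' := by
        intro g g' hg hg' z
        rw [mul_smul, hg, hg']
      one_mem' := by
        intro z
        rw [one_smul]
      inv_mem' := by
        intro g hg z
        rw [← hg (g⁻¹ • z), smul_inv_smul] }
  have hIS : Iw hC K ≤ S := fun g hg z => Av_smul _ _ hg z
  have hKF : ∀ g ∈ maxK C K, ∀ z : XX C K, Av (Iw hC K) h (g • z) = Av (Iw hC K) h z := by
    have h1 : maxK C K ≤ S := by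
      rw [hKgn r C hC K, Subgroup.closure_le]
      rintro g ⟨β, a, ha, rfl⟩
      exact V4 S hIS (fun i => hwF i) β a ha
    exact fun g hg => h1 hg
  -- its values
  have hIwK : Iw hC K ≤ maxK C K := by
    rw [hKgn r C hC K]
    refine Subgroup.closure_mono ?_
    rintro g ⟨β, a, ha, rfl⟩
    refine ⟨β, a, ?_, rfl⟩
    rcases ha with ha | ha
    · exact ha.2
    · exact (H22.hF1 K).2.2.2.2.1 _ _ _ (by norm_num) ha.2
  have hval : ∀ l : Fin r → ℤ, IsAnti C l → Av (Iw hC K) h (tp hC K l) = q ^ hv l * D l := by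
    intro l hl
    refine Av_cst _ _ _ (hfinK _ hIwK _) _ ?_
    intro y hy
    obtain ⟨g, hg, rfl⟩ := mem_Orb.mp hy
    obtain ⟨v, hv, h1⟩ := hIan r C hC K l hl g hg
    have hv' : v ∈ Ug C K := by
      refine Subgroup.closure_le _ |>.mpr ?_ hv
      rintro x ⟨β, a, hβ, _, rfl⟩
      exact xg_Ug hC hβ a
    rw [h1, hU v hv', hT]
  obtain ⟨C1, _, C3, _⟩ := hCat r C hC K
  have hdelta : ∀ x : XX C K, Av (Iw hC K) h x = if x = oo C K then 1 else 0 := by
    intro x
    obtain ⟨g, hg, l, hl, rfl⟩ := C1 x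
    rw [hKF g hg, hval l hl]
    by_cases h0 : l = 0
    · subst h0
      rw [tp_zero, (mem_maxK_iff g).mp hg, if_pos rfl, hD.zero]
      simp [hv]
    · have h1 : D l = 0 := by
        obtain ⟨i, hi⟩ := C3 l hl h0
        by_contra hne
        have := hD.supp l hne i
        omega
      rw [h1, mul_zero, if_neg]
      intro h2
      apply h0
      have h3 : tp hC K l = tp hC K 0 := by
        rw [tp_zero]
        have h4 : tp hC K l = g⁻¹ • oo C K := by rw [← h2, inv_smul_smul]
        rw [h4]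
        exact (mem_maxK_iff _).mp (inv_mem hg)
      exact (hHor r C hC K).1 1 (one_mem _) l 0 (by rw [one_smul]; exact h3)
  -- the sum
  have hkfin := hk.fin (oo C K)
  set O := hkfin.toFinset with hO
  have hOmem : ∀ y, y ∈ O ↔ k (oo C K) y ≠ 0 := fun y => hkfin.mem_toFinset
  have hkinv := (hKer r C hC K).2.2.2.2.2.2.2 k hk
  have hsumO : ∑ y ∈ O, k (oo C K) y * h y = k (oo C K) (oo C K) := by
    have h1 := sum_Av (Iw hC K) (fun y => k (oo C K) y * h y) O (fun y hy g hg => by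
      rw [hOmem] at hy ⊢
      rw [hkinv g (hIwK hg)]
      exact hy)
    rw [← h1]
    have h2 : ∀ y ∈ O, Av (Iw hC K) (fun y => k (oo C K) y * h y) y =
        k (oo C K) y * if y = oo C K then 1 else 0 := by
      intro y _
      rw [← hdelta y, Av_def, Av_def, ← mul_div_assoc]
      congr 1
      have h3 : ∀ z ∈ Orb (Iw hC K) y, k (oo C K) z * h z = k (oo C K) y * h z := by
        intro z hz
        obtain ⟨g, hg, rfl⟩ := mem_Orb.mp hz
        rw [hkinv g (hIwK hg)]
      rw [finsum_mem_congr rfl h3, finsum_mem_eq_finite_toFinset_sum _ (hfinK _ hIwK y),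
        finsum_mem_eq_finite_toFinset_sum _ (hfinK _ hIwK y), Finset.mul_sum]
    rw [Finset.sum_congr rfl h2]
    by_cases h0 : oo C K ∈ O
    · rw [Finset.sum_eq_single_of_mem _ h0 fun y _ hy => by rw [if_neg hy, mul_zero], if_pos rfl,
        mul_one]
    · rw [Finset.sum_eq_zero fun y hy => by
        rw [if_neg (fun he : y = oo C K => h0 (by rw [← he]; exact hy)), mul_zero]]
      rw [hOmem, not_not] at h0
      exact h0.symm
  rw [← hsumO]
  have hl : ∀ l, D l * sat hC k l = ∑ y ∈ O, if lof y = l then k (oo C K) y * h y else 0 := by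
    intro l
    unfold sat hsum
    have h1 : ∑ᶠ y ∈ Hor hC K l, k (oo C K) y =
        ∑ y ∈ O, if lof y = l then k (oo C K) y else 0 := by
      rw [← Finset.sum_filter]
      refine finsum_mem_eq_sum_of_inter_support_eq _ ?_
      ext y
      simp only [Set.mem_inter_iff, Function.mem_support, Finset.coe_filter, Set.mem_setOf_eq]
      rw [hOmem, huniq]
      tauto
    rw [h1, ← hq, Finset.mul_sum, Finset.mul_sum]
    refine Finset.sum_congr rfl fun y _ => ?_
    by_cases hy : lof y = l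
    · rw [if_pos hy, if_pos hy, hh]
      simp only [hy]
      ring
    · rw [if_neg hy, if_neg hy, mul_zero, mul_zero]
  have hsup2 : (Function.support fun l => D l * sat hC k l) ⊆ ((O.image lof : Finset _) : Set _) := by
    intro l hl'
    rw [Function.mem_support, hl] at hl'
    obtain ⟨y, hy, hy2⟩ := Finset.exists_ne_zero_of_sum_ne_zero hl'
    rw [Finset.mem_coe, Finset.mem_image]
    refine ⟨y, hy, ?_⟩
    by_contra hne
    exact hy2 (if_neg hne)
  rw [finsum_eq_sum_of_support_subset _ hsup2, Finset.sum_congr rfl fun l _ => hl l,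
    Finset.sum_comm]
  refine Finset.sum_congr rfl fun y hy => ?_
  rw [Finset.sum_ite_eq (O.image lof) (lof y) (fun _ => k (oo C K) y * h y),
    if_pos (Finset.mem_image_of_mem lof hy)]

end Pool.Agent.TMP.H29
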