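import Pool.Agent.Helper29_TMP.StE

/-!
# The coefficients of `∏_{β > 0} (1 - e^β) / (1 - q⁻¹ e^β)`: statement
-/

open scoped BigOperators

namespace Pool.Agent.TMP

open Pool.Agent.DEN

/-- DEL: the coefficients of `∏_{β > 0} (1 - e^β) / (1 - q⁻¹ e^β)`, with the rank one identity. -/
def DelStatement : Prop :=
  ∀ (r : ℕ) (C : Matrix (Fin r) (Fin r) ℤ), SimplyLaced C → ∀ q : ℝ, 1 < q →
    ∃ D : (Fin r → ℤ) → ℂ, D 0 = 1 ∧ (∀ μ, D μ ≠ 0 → ∀ i, 0 ≤ μ i) ∧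
      (∀ T : Finset (Fin r → ℤ), ∑ μ ∈ T, ‖D μ‖ ≤ 2 ^ Nat.card (Rt C)) ∧
      ∀ (i : Fin r) (μ : Fin r → ℤ), 0 < ip C μ (al i) →
        ((q⁻¹ : ℝ) : ℂ) * D (μ - ip C μ (al i) • al i) =
          D μ + ((1 - q⁻¹ : ℝ) : ℂ) *
            ∑ j ∈ Finset.Ico 1 (ip C μ (al i)).toNat, D (μ - (j : ℤ) • al i)

end Pool.Agent.TMP
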