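import Pool.Agent.Helper22_DEN.Setup

/-!
# The group algebra of the root lattice, its invariants, and the statement of the elimination part
-/

open scoped BigOperators

namespace Pool.Agent.TMP

open Pool.Agent.DEN

section
variable {r : ℕ} (C : Matrix (Fin r) (Fin r) ℤ)

/-- The group algebra of the root lattice. -/
abbrev CQ (r : ℕ) : Type := AddMonoidAlgebra ℂ (Fin r → ℤ)

/-- The simple reflection `s_i` on the root lattice. -/
def sref (i : Fin r) : (Fin r → ℤ) →+ (Fin r → ℤ) where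
  toFun μ := μ - ip C μ (al i) • al i
  map_zero' := by rw [ip_zero_left, zero_smul, sub_zero]
  map_add' x y := by rw [ip_add_left, add_smul]; abel

/-- The algebra of the invariants of the Weyl group in `ℂ[Q]`. -/
noncomputable def invAlg : Subalgebra ℂ (CQ r) where
  carrier := {p | ∀ i, AddMonoidAlgebra.mapDomainAlgHom ℂ ℂ (sref C i) p = p}
  mul_mem' := by
    intro p q hp hq i
    rw [map_mul, hp i, hq i]
  add_mem' := by
    intro p q hp hq i
    rw [map_add, hp i, hq i]
  algebraMap_mem' := by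
    intro c i
    rw [AlgHom.commutes]

/-- ELIM: finitely many invariants of small `ℓ²` norm detect every hermitian character of the
algebra of the invariants which is not tempered. -/
def ElimStatement : Prop :=
  ∀ (r : ℕ) (C : Matrix (Fin r) (Fin r) ℤ), SimplyLaced C → ∃ c : ℕ, ∀ n : ℕ, 0 < n →
    ∃ (L : ℕ) (p : Fin L → invAlg C),
      (∀ k μ, (p k).1.coeff μ ≠ 0 → ∀ i, |μ i| ≤ c * n) ∧
      ∑ k, ∑ μ ∈ (p k).1.coeff.support, ‖(p k).1.coeff μ‖ ^ 2 ≤ (c : ℝ) / n ∧
      ∀ χ : invAlg C →ₐ[ℂ] ℂ,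
        (∀ a b : invAlg C, (∀ μ, b.1.coeff μ = (starRingEnd ℂ) (a.1.coeff (-μ))) →
          χ b = (starRingEnd ℂ) (χ a)) →
        (∃ ψ : CQ r →ₐ[ℂ] ℂ, (∀ a : invAlg C, ψ a.1 = χ a) ∧
          ∀ μ, ‖ψ (AddMonoidAlgebra.single μ 1)‖ = 1) ∨
        ∃ k, 1 ≤ ‖χ (p k)‖

end

section
variable {r : ℕ} {C : Matrix (Fin r) (Fin r) ℤ}

theorem sref_apply (i : Fin r) (μ : Fin r → ℤ) : sref C i μ = μ - ip C μ (al i) • al i := rfl

theorem sref_sref (hC : SimplyLaced C) (i : Fin r) (μ : Fin r → ℤ) :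
    sref C i (sref C i μ) = μ := by
  rw [sref_apply, sref_apply, ip_sub_left, ip_smul_left, ip_al_al, hC.diag]
  have : ip C μ (al i) - ip C μ (al i) * 2 = -ip C μ (al i) := by ring
  rw [this, neg_smul, sub_neg_eq_add, sub_add_cancel]

theorem ip_sref (hC : SimplyLaced C) (i : Fin r) (μ ν : Fin r → ℤ) :
    ip C (sref C i μ) (sref C i ν) = ip C μ ν := by
  simp only [sref_apply, ip_sub_left, ip_sub_right, ip_smul_left, ip_smul_right, ip_al_al, hC.diag,
    hC.ip_comm (al i) ν]
  ring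

/-- The simple reflection as an automorphism. -/
def srefE (hC : SimplyLaced C) (i : Fin r) : (Fin r → ℤ) ≃+ (Fin r → ℤ) where
  toFun := sref C i
  invFun := sref C i
  left_inv := sref_sref hC i
  right_inv := sref_sref hC i
  map_add' := (sref C i).map_add

theorem srefE_apply (hC : SimplyLaced C) (i : Fin r) (μ : Fin r → ℤ) :
    srefE hC i μ = μ - ip C μ (al i) • al i := rfl

theorem mapDomain_srefE (hC : SimplyLaced C) (i : Fin r) (p : CQ r) :
    AddMonoidAlgebra.mapDomainAlgHom ℂ ℂ (sref C i) p =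
      AddMonoidAlgebra.domCongr ℂ ℂ (srefE hC i) p := by
  have h : (AddMonoidAlgebra.domCongr ℂ ℂ (srefE hC i)).toAlgHom =
      AddMonoidAlgebra.mapDomainAlgHom ℂ ℂ (srefE hC i) :=
    AddMonoidAlgebra.domCongr_toAlgHom (srefE hC i)
  have h2 := congrArg (fun f : CQ r →ₐ[ℂ] CQ r => f p) h
  exact h2.symm

/-- The invariants in terms of the coefficients. -/
theorem mem_invAlg (hC : SimplyLaced C) (p : CQ r) :
    p ∈ invAlg C ↔ ∀ i μ, p.coeff (μ - ip C μ (al i) • al i) = p.coeff μ := by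
  constructor
  · intro h i μ
    have h1 := h i
    rw [mapDomain_srefE hC] at h1
    have h2 := congrArg (fun q : CQ r => q.coeff μ) h1
    simp only [AddMonoidAlgebra.coeff_domCongr] at h2
    exact h2
  · intro h i
    rw [mapDomain_srefE hC]
    ext μ
    rw [AddMonoidAlgebra.coeff_domCongr]
    exact h i μ

end

end Pool.Agent.TMP
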